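import Pool.Agent.W2helper69.ID.F

/-! # independent dilations: the form of Montgomery's conjecture -/

set_option autoImplicit false

open Finset MeasureTheory

namespace Pool.Agent.W2helper69.ID

open Pool.Agent.TH181.LV Pool.Agent.TH705.DL

/-- large values of all Dirichlet polynomials on most independently dilated sets -/
theorem both {ι : Type*} [Fintype ι] (N : ℕ) (hN : 1 ≤ N) (T h δ : ℝ) (hh : 1 ≤ h)
    (hT : 1 ≤ T) (hδ : 0 < δ) (hδ1 : δ ≤ 1) (S : ι → Finset ℝ)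
    (hS : ∀ j, ∀ s ∈ S j, h ≤ s ∧ s ≤ T)
    (hsep : ∀ j, ∀ t ∈ S j, ∀ s ∈ S j, t ≠ s → 1 ≤ |t - s|) (x : ι → ℝ) :
    ∃ E : Set (ι → ℝ), MeasurableSet E ∧ volume E ≤ ENNReal.ofReal δ ∧
      ∀ u : ι → ℝ, (∀ j, u j ∈ Set.Icc (0 : ℝ) 1) → u ∉ E → ∀ b : ℕ → ℂ,
        (∀ n, ‖b n‖ ≤ 1) → ∀ V K : ℝ, 0 < V →
          K = 432 * (1 + Real.log (2 * N * T)) * Real.log (4 * N / δ) →
          K * (N * (1 + N / h)) ≤ V ^ 2 →
          (∀ j, ∀ s ∈ S j, V ≤ ‖∑ n ∈ Icc N (2 * N), b n * ph (x j + (1 + u j) * s) n‖) →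
          RR S ≤ K * N / V ^ 2 * muN N (mm S) (δ / 2) ∧
          (8 * (K ^ 2 * N ^ 3) ≤ δ * V ^ 4 → RR S ≤ 2 * K * N ^ 2 / V ^ 2) ∧
          (2 * (K * N) ≤ V ^ 2 → RR S ≤ 8 * K ^ 2 * N ^ 4 / (δ * V ^ 4)) := by
  obtain ⟨E, hE, hv, hmain⟩ := sieve N hN T h δ (1 / 2) (mm S) hh hT hδ hδ1 (by norm_num) S hS
    hsep x (card_le_mm S) (Nat.cast_nonneg _)
  refine ⟨E, hE, hv, fun u hu huE b => ?_⟩
  obtain ⟨G, hG, hb⟩ := hmain u hu huE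
  intro hb1 V K hV hK hVK hF
  exact of_sieve N hN T h δ hh hT hδ hδ1 S
    (fun j s => ∑ n ∈ Icc N (2 * N), b n * ph (x j + (1 + u j) * s) n) b hb1 G hG
    (hb b) V K hV hK hVK hF

/-- simplification of the bound for the good pieces -/
theorem muN_le (N : ℕ) {m δ : ℝ} (hm : 0 ≤ m) (hδ : 0 < δ) (hδ1 : δ ≤ 1) :
    muN N m (δ / 2) ≤ √(2 / δ) * min (N + m * √N) (m + N * √m) := by
  have h1 : 1 ≤ √(2 / δ) := by
    rw [Real.one_le_sqrt, one_le_div hδ]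
    linarith
  have h0 : 0 ≤ √(2 / δ) := by linarith
  unfold muN
  rw [mul_min_of_nonneg _ _ h0]
  apply min_le_min
  · have h2 : √(N / (δ / 2)) = √(2 / δ) * √N := by
      rw [← Real.sqrt_mul (by positivity)]
      congr 1
      field_simp
    rw [h2]
    have h3 : (N:ℝ) ≤ √(2 / δ) * N := le_mul_of_one_le_left (Nat.cast_nonneg _) h1
    have h4 : m * (√(2 / δ) * √N) = √(2 / δ) * (m * √N) := by ring
    rw [h4, mul_add]
    linarith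
  · have h2 : √(m / (δ / 2)) = √(2 / δ) * √m := by
      rw [← Real.sqrt_mul (by positivity)]
      congr 1
      field_simp
    rw [h2]
    have h3 : m ≤ √(2 / δ) * m := le_mul_of_one_le_left hm h1
    have h4 : N * (√(2 / δ) * √m) = √(2 / δ) * (N * √m) := by ring
    rw [h4, mul_add]
    linarith

/-- the form of Montgomery's conjecture -/
theorem mont (A σ ε : ℝ) (hA : 1 ≤ A) (hσ : 1 / 2 < σ) (hε : 0 < ε) :
    ∃ κ : ℝ, 0 < κ ∧ ∃ N₀ : ℕ, ∀ N : ℕ, N₀ ≤ N → ∀ T : ℝ, (N:ℝ) ≤ T → T ≤ (N:ℝ) ^ A →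
      ∀ (J : ℕ) (S : Fin J → Finset ℝ), (∀ j, ∀ s ∈ S j, (N:ℝ) ≤ s ∧ s ≤ T) →
      (∀ j, ∀ t ∈ S j, ∀ s ∈ S j, t ≠ s → 1 ≤ |t - s|) → ∀ x : Fin J → ℝ,
      ∃ E : Set (Fin J → ℝ), MeasurableSet E ∧ volume E ≤ ENNReal.ofReal ((N:ℝ) ^ (-κ)) ∧
        ∀ u : Fin J → ℝ, (∀ j, u j ∈ Set.Icc (0 : ℝ) 1) → u ∉ E → ∀ b : ℕ → ℂ,
          (∀ n, ‖b n‖ ≤ 1) →
          (∀ j, ∀ s ∈ S j,
            (N:ℝ) ^ σ < ‖∑ n ∈ Icc N (2 * N), b n * ph (x j + (1 + u j) * s) n‖) →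
          (3 / 4 < σ ∨ (∀ j, ((S j).card : ℝ) ≤ √N) → RR S ≤ (N:ℝ) ^ (2 - 2 * σ + ε)) ∧
          RR S ≤ (N:ℝ) ^ (1 - 2 * σ + ε) * min (N + mm S * √N) (mm S + N * √(mm S)) ∧
          RR S ≤ (N:ℝ) ^ (4 - 4 * σ + ε) := by
  -- the small exponents
  obtain ⟨κ, hκ0, hκ1, hκ2⟩ : ∃ κ : ℝ, 0 < κ ∧ κ ≤ ε / 4 ∧
      (3 / 4 < σ → κ ≤ (4 * σ - 3) / 2) := by
    by_cases hc : 3 / 4 < σ
    · exact ⟨min (ε / 4) ((4 * σ - 3) / 2), lt_min (by linarith) (by linarith), min_le_left _ _,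
        fun _ => min_le_right _ _⟩
    · exact ⟨ε / 4, by linarith, le_rfl, fun h => absurd h hc⟩
  obtain ⟨η, hη0, hη1, hη2, hη3⟩ : ∃ η : ℝ, 0 < η ∧ η ≤ ε / 8 ∧ η ≤ 2 * σ - 1 ∧
      (3 / 4 < σ → 3 * η ≤ (4 * σ - 3) / 2) := by
    by_cases hc : 3 / 4 < σ
    · exact ⟨min (min (ε / 8) (2 * σ - 1)) ((4 * σ - 3) / 6),
        lt_min (lt_min (by linarith) (by linarith)) (by linarith),
        (min_le_left _ _).trans (min_le_left _ _), (min_le_left _ _).trans (min_le_right _ _),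
        fun _ => by
          have := min_le_right (min (ε / 8) (2 * σ - 1)) ((4 * σ - 3) / 6)
          linarith⟩
    · exact ⟨min (ε / 8) (2 * σ - 1), lt_min (by linarith) (by linarith), min_le_left _ _,
        min_le_right _ _, fun h => absurd h hc⟩
  obtain ⟨N₀, hN₀⟩ := ev_small A (4 * κ) η hA (by linarith) hη0
  refine ⟨κ, hκ0, N₀, ?_⟩
  intro N hNN T hT1 hT2 J S hS hsep x
  obtain ⟨hN, hsm⟩ := hN₀ N hNN
  have hN1 : (1:ℝ) ≤ N := by exact_mod_cast hN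
  have hN0 : (0:ℝ) < N := by linarith
  have hT : 1 ≤ T := by linarith
  have h44 : -(4 * κ) / 4 = -κ := by ring
  have hsmall := hsm T hT1 hT2
  rw [h44] at hsmall
  have hδ0 : 0 < (N:ℝ) ^ (-κ) := by positivity
  have hδ1 : (N:ℝ) ^ (-κ) ≤ 1 := Real.rpow_le_one_of_one_le_of_nonpos hN1 (by linarith)
  obtain ⟨E, hE, hv, hmain⟩ := both N hN T N ((N:ℝ) ^ (-κ)) hN1 hT hδ0 hδ1 S hS hsep x
  refine ⟨E, hE, hv, ?_⟩
  intro u hu huE b hb hF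
  obtain ⟨K, hK⟩ : ∃ K : ℝ, K = 432 * (1 + Real.log (2 * N * T)) *
    Real.log (4 * N / (N:ℝ) ^ (-κ)) := ⟨_, rfl⟩
  rw [← hK] at hsmall
  have hK1 : 1 ≤ K := by
    obtain ⟨-, -, -, h4⟩ := logs hN hT
    have h5 : 1 ≤ Real.log (4 * N / (N:ℝ) ^ (-κ)) := by
      rw [Real.le_log_iff_exp_le (by positivity), le_div_iff₀ hδ0]
      have := Real.exp_one_lt_d9
      nlinarith
    rw [hK]
    nlinarith
  have hV0 : 0 < (N:ℝ) ^ σ := by positivity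
  have hV2 : ((N:ℝ) ^ σ) ^ 2 = (N:ℝ) ^ (2 * σ) := by
    rw [← Real.rpow_natCast, ← Real.rpow_mul hN0.le]
    congr 1
    push_cast
    ring
  have hV4 : ((N:ℝ) ^ σ) ^ 4 = (N:ℝ) ^ (4 * σ) := by
    rw [← Real.rpow_natCast, ← Real.rpow_mul hN0.le]
    congr 1
    push_cast
    ring
  have hVK' : 2 * (K * N) ≤ ((N:ℝ) ^ σ) ^ 2 := by
    rw [hV2]
    have h6 : (N:ℝ) ^ (2 * σ) = (N:ℝ) ^ (2 * σ - 1) * N := by
      have : 2 * σ = (2 * σ - 1) + 1 := by ring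
      rw [this, Real.rpow_add hN0, Real.rpow_one]
      ring_nf
    rw [h6]
    have h7 : (N:ℝ) ^ η ≤ (N:ℝ) ^ (2 * σ - 1) := Real.rpow_le_rpow_of_exponent_le hN1 hη2
    have h8 : 2 * K * N ≤ (N:ℝ) ^ (2 * σ - 1) * N :=
      mul_le_mul_of_nonneg_right (hsmall.trans h7) hN0.le
    linarith
  have hVK : K * (N * (1 + (N:ℝ) / N)) ≤ ((N:ℝ) ^ σ) ^ 2 := by
    rw [div_self hN0.ne']
    linarith
  obtain ⟨hI, hII, hIII⟩ := hmain u hu huE b hb ((N:ℝ) ^ σ) K hV0 hK hVK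
    (fun j s hs => (hF j s hs).le)
  have hIII' := hIII hVK'
  rw [hV2] at hI
  rw [hV2, hV4] at hII
  rw [hV4] at hIII'
  have hN2 : (N:ℝ) ^ 2 = (N:ℝ) ^ (2:ℝ) := by rw [← Real.rpow_natCast]; norm_num
  have hN3 : (N:ℝ) ^ 3 = (N:ℝ) ^ (3:ℝ) := by rw [← Real.rpow_natCast]; norm_num
  have hN4 : (N:ℝ) ^ 4 = (N:ℝ) ^ (4:ℝ) := by rw [← Real.rpow_natCast]; norm_num
  have h2η : (2:ℝ) ≤ (N:ℝ) ^ η := by linarith
  have hK2 : (2 * K) ^ 2 ≤ (N:ℝ) ^ (2 * η) := by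
    have h10 : (N:ℝ) ^ (2 * η) = ((N:ℝ) ^ η) ^ 2 := by
      rw [← Real.rpow_natCast, ← Real.rpow_mul hN0.le]
      congr 1
      push_cast
      ring
    rw [h10]
    exact pow_le_pow_left₀ (by linarith) hsmall 2
  have h8K : 8 * K ^ 2 ≤ (N:ℝ) ^ (3 * η) := by
    have h11 : (N:ℝ) ^ (3 * η) = (N:ℝ) ^ (2 * η) * (N:ℝ) ^ η := by
      rw [← Real.rpow_add hN0]
      congr 1
      ring
    rw [h11]
    calc 8 * K ^ 2 = (2 * K) ^ 2 * 2 := by ring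
      _ ≤ (N:ℝ) ^ (2 * η) * (N:ℝ) ^ η := mul_le_mul hK2 h2η (by norm_num) (by positivity)
  have hm0 : (0:ℝ) ≤ mm S := Nat.cast_nonneg _
  have hR0 := RR_nonneg S
  -- the factor `√(2/δ)`
  have hsq : √(2 / (N:ℝ) ^ (-κ)) ≤ 2 * (N:ℝ) ^ (κ / 2) := by
    apply Real.sqrt_le_iff.2
    refine ⟨by positivity, ?_⟩
    have h12 : (2 * (N:ℝ) ^ (κ / 2)) ^ 2 = 4 * (N:ℝ) ^ κ := by
      rw [mul_pow, ← Real.rpow_natCast ((N:ℝ) ^ (κ / 2)), ← Real.rpow_mul hN0.le]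
      norm_num
    rw [h12, Real.rpow_neg hN0.le, div_inv_eq_mul]
    have : 0 ≤ (N:ℝ) ^ κ := by positivity
    linarith
  have hmu := muN_le N hm0 hδ0 hδ1
  obtain ⟨Mn, hMn⟩ : ∃ Mn : ℝ, Mn = min ((N:ℝ) + mm S * √N) (mm S + N * √(mm S)) := ⟨_, rfl⟩
  rw [← hMn] at hmu ⊢
  have hMn0 : 0 ≤ Mn := by
    rw [hMn]
    apply le_min <;> positivity
  have hb1 : RR S ≤ (N:ℝ) ^ (1 - 2 * σ) * (N:ℝ) ^ (η + κ / 2) * Mn := by
    have h13 : muN N (mm S) ((N:ℝ) ^ (-κ) / 2) ≤ 2 * (N:ℝ) ^ (κ / 2) * Mn :=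
      hmu.trans (mul_le_mul_of_nonneg_right hsq hMn0)
    have h14 : 0 ≤ K * N / (N:ℝ) ^ (2 * σ) := by positivity
    calc RR S ≤ K * N / (N:ℝ) ^ (2 * σ) * (2 * (N:ℝ) ^ (κ / 2) * Mn) :=
          hI.trans (mul_le_mul_of_nonneg_left h13 h14)
      _ = (N / (N:ℝ) ^ (2 * σ)) * (2 * K * (N:ℝ) ^ (κ / 2)) * Mn := by ring
      _ ≤ (N:ℝ) ^ (1 - 2 * σ) * (N:ℝ) ^ (η + κ / 2) * Mn := by
          have h15 : (N:ℝ) ^ (1 - 2 * σ) = N / (N:ℝ) ^ (2 * σ) := by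
            rw [Real.rpow_sub hN0, Real.rpow_one]
          rw [h15, Real.rpow_add hN0]
          apply mul_le_mul_of_nonneg_right _ hMn0
          apply mul_le_mul_of_nonneg_left _ (by positivity)
          exact mul_le_mul_of_nonneg_right hsmall (by positivity)
  refine ⟨?_, ?_, ?_⟩
  · rintro (hc | hc)
    · have h11 : 8 * (K ^ 2 * (N:ℝ) ^ 3) ≤ (N:ℝ) ^ (-κ) * (N:ℝ) ^ (4 * σ) := by
        calc 8 * (K ^ 2 * (N:ℝ) ^ 3) = 8 * K ^ 2 * (N:ℝ) ^ (3:ℝ) := by rw [hN3]; ring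
          _ ≤ (N:ℝ) ^ (3 * η) * (N:ℝ) ^ (3:ℝ) := mul_le_mul_of_nonneg_right h8K (by positivity)
          _ = (N:ℝ) ^ (3 * η + 3) := by rw [← Real.rpow_add hN0]
          _ ≤ (N:ℝ) ^ (-κ + 4 * σ) := by
              apply Real.rpow_le_rpow_of_exponent_le hN1
              have := hκ2 hc
              have := hη3 hc
              linarith
          _ = _ := by rw [Real.rpow_add hN0]
      refine (hII h11).trans ?_
      have h9 : 2 * K * (N:ℝ) ^ 2 / (N:ℝ) ^ (2 * σ) = 2 * K * (N:ℝ) ^ (2 - 2 * σ) := by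
        rw [Real.rpow_sub hN0, hN2]
        ring
      rw [h9, Real.rpow_add hN0, mul_comm]
      apply mul_le_mul_of_nonneg_left _ (by positivity)
      exact hsmall.trans (Real.rpow_le_rpow_of_exponent_le hN1 (by linarith))
    · have hm : (mm S : ℝ) ≤ √N := by
        have h12 : mm S ≤ ⌊√(N:ℝ)⌋₊ := by
          apply Finset.sup_le
          intro j _
          exact Nat.le_floor (hc j)
        have h13 : ((⌊√(N:ℝ)⌋₊ : ℕ) : ℝ) ≤ √N := Nat.floor_le (by positivity)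
        have h14 : (mm S : ℝ) ≤ ((⌊√(N:ℝ)⌋₊ : ℕ) : ℝ) := by exact_mod_cast h12
        exact h14.trans h13
      have h16 : Mn ≤ 2 * N := by
        rw [hMn]
        refine (min_le_left _ _).trans ?_
        have h17 : (mm S : ℝ) * √N ≤ √N * √N := mul_le_mul_of_nonneg_right hm (by positivity)
        rw [Real.mul_self_sqrt hN0.le] at h17
        linarith
      calc RR S ≤ (N:ℝ) ^ (1 - 2 * σ) * (N:ℝ) ^ (η + κ / 2) * (2 * N) :=
            hb1.trans (mul_le_mul_of_nonneg_left h16 (by positivity))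
        _ = (2 * (N:ℝ) ^ (η + κ / 2)) * ((N:ℝ) ^ (1 - 2 * σ) * N) := by ring
        _ ≤ (N:ℝ) ^ ε * ((N:ℝ) ^ (1 - 2 * σ) * N) := by
            apply mul_le_mul_of_nonneg_right _ (by positivity)
            calc 2 * (N:ℝ) ^ (η + κ / 2) ≤ (N:ℝ) ^ η * (N:ℝ) ^ (η + κ / 2) :=
                  mul_le_mul_of_nonneg_right h2η (by positivity)
              _ = (N:ℝ) ^ (η + (η + κ / 2)) := by rw [← Real.rpow_add hN0]
              _ ≤ _ := Real.rpow_le_rpow_of_exponent_le hN1 (by linarith)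
        _ = (N:ℝ) ^ ε * (N:ℝ) ^ (2 - 2 * σ) := by
            congr 1
            have : 2 - 2 * σ = (1 - 2 * σ) + 1 := by ring
            rw [this, Real.rpow_add hN0, Real.rpow_one]
        _ = _ := by rw [← Real.rpow_add hN0]; ring_nf
  · refine hb1.trans ?_
    apply mul_le_mul_of_nonneg_right _ hMn0
    rw [← Real.rpow_add hN0]
    exact Real.rpow_le_rpow_of_exponent_le hN1 (by linarith)
  · refine hIII'.trans ?_
    have h18 : 8 * K ^ 2 * (N:ℝ) ^ 4 / ((N:ℝ) ^ (-κ) * (N:ℝ) ^ (4 * σ)) =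
        8 * K ^ 2 * ((N:ℝ) ^ (4 - 4 * σ) * (N:ℝ) ^ κ) := by
      rw [← Real.rpow_add hN0, hN4, mul_div_assoc, ← Real.rpow_sub hN0, ← Real.rpow_add hN0]
      congr 2
      ring
    rw [h18]
    calc 8 * K ^ 2 * ((N:ℝ) ^ (4 - 4 * σ) * (N:ℝ) ^ κ)
        ≤ (N:ℝ) ^ (3 * η) * ((N:ℝ) ^ (4 - 4 * σ) * (N:ℝ) ^ κ) :=
          mul_le_mul_of_nonneg_right h8K (by positivity)
      _ = (N:ℝ) ^ (3 * η + (4 - 4 * σ + κ)) := by
          rw [← Real.rpow_add hN0, ← Real.rpow_add hN0]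
      _ ≤ _ := Real.rpow_le_rpow_of_exponent_le hN1 (by linarith)

end Pool.Agent.W2helper69.ID
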