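import Pool.Agent.TH181.LV.B
import Pool.Agent.TH705.DL.TransM

/-! # two bounds for the mean square at the points of a dilated set -/

set_option autoImplicit false

open Finset MeasureTheory

namespace Pool.Agent.W2helper69.ID

open Pool.Agent.TH181.LV

/-- the kernel sum of the method of Halasz and Montgomery -/
theorem kernel_sum (S : Finset ℝ) (N : ℕ) (T lam : ℝ) (hT : 1 ≤ T) (hl1 : 1 ≤ lam) (hl2 : lam ≤ 2)
    (hS : ∀ t ∈ S, 0 ≤ t ∧ t ≤ T) (hsep : ∀ t ∈ S, ∀ s ∈ S, t ≠ s → 1 ≤ |t - s|)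
    (D : ℝ → ℂ) (Q : ℝ) (hQ : Q = ∑ t ∈ S, ‖D t‖ ^ 2) :
    ∑ t ∈ S, ∑ s ∈ S, ‖D t‖ * ‖D s‖ * ‖F N (lam * (t - s))‖ ≤
      N * Q + Q * √(Z2 S N lam) + 4 * Real.pi * N * (2 * (1 + Real.log T) * Q) := by
  have hlog : 0 ≤ Real.log T := Real.log_nonneg hT
  have hQ0 : 0 ≤ Q := by rw [hQ]; exact Finset.sum_nonneg (fun t _ => by positivity)
  have hpi := Real.pi_pos
  have h1 : ∑ t ∈ S, ∑ s ∈ S, ‖D t‖ * ‖D s‖ * ‖F N (lam * (t - s))‖ ≤
      ∑ t ∈ S, ∑ s ∈ S, (‖D t‖ * ‖D s‖ * (if t = s then (N : ℝ) else 0) +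
        (‖D t‖ * ‖D s‖) * ‖F (min N ⌈|t - s|⌉₊) (lam * |t - s|)‖ +
        4 * Real.pi * N * ((‖D t‖ ^ 2 + ‖D s‖ ^ 2) / 2 * (1 / |t - s|))) := by
    apply Finset.sum_le_sum
    intro t ht
    apply Finset.sum_le_sum
    intro s hs
    have h2 := kernel_le N t s lam hl1 hl2 (hsep t ht s hs)
    have h3 : 0 ≤ ‖D t‖ * ‖D s‖ := by positivity
    have h4 := mul_le_mul_of_nonneg_left h2 h3
    refine h4.trans ?_
    have h5 : ‖D t‖ * ‖D s‖ ≤ (‖D t‖ ^ 2 + ‖D s‖ ^ 2) / 2 := by nlinarith [sq_nonneg (‖D t‖ - ‖D s‖)]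
    have h6 : ‖D t‖ * ‖D s‖ * (4 * Real.pi * N * (1 / |t - s|)) ≤
        4 * Real.pi * N * ((‖D t‖ ^ 2 + ‖D s‖ ^ 2) / 2 * (1 / |t - s|)) := by
      have h7 : ‖D t‖ * ‖D s‖ * (4 * Real.pi * N * (1 / |t - s|)) =
        4 * Real.pi * N * (‖D t‖ * ‖D s‖ * (1 / |t - s|)) := by ring
      rw [h7]
      apply mul_le_mul_of_nonneg_left _ (by positivity)
      exact mul_le_mul_of_nonneg_right h5 (by positivity)
    rw [mul_add, mul_add]
    linarith
  refine h1.trans ?_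
  simp_rw [Finset.sum_add_distrib]
  apply add_le_add
  · apply add_le_add
    · apply le_of_eq
      rw [hQ, Finset.mul_sum]
      apply Finset.sum_congr rfl
      intro t ht
      simp only [mul_ite, mul_zero]
      rw [Finset.sum_ite_eq, if_pos ht]
      ring
    · have h2 := Real.sum_mul_le_sqrt_mul_sqrt (S ×ˢ S) (fun p => ‖D p.1‖ * ‖D p.2‖)
        (fun p => ‖F (min N ⌈|p.1 - p.2|⌉₊) (lam * |p.1 - p.2|)‖)
      rw [Finset.sum_product, Finset.sum_product, Finset.sum_product] at h2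
      refine h2.trans ?_
      have h3 : ∑ x ∈ S, ∑ y ∈ S, (‖D x‖ * ‖D y‖) ^ 2 = Q ^ 2 := by
        rw [hQ, sq (∑ t ∈ S, ‖D t‖ ^ 2), Finset.sum_mul_sum]
        apply Finset.sum_congr rfl
        intro t _
        apply Finset.sum_congr rfl
        intro s _
        ring
      simp only at h3 ⊢
      rw [h3, Real.sqrt_sq hQ0]
      exact le_of_eq rfl
  · have h2 : ∀ t ∈ S, ∑ s ∈ S, ‖D t‖ ^ 2 * (1 / |t - s|) ≤ ‖D t‖ ^ 2 * (2 * (1 + Real.log T)) := by
      intro t ht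
      rw [← Finset.mul_sum]
      exact mul_le_mul_of_nonneg_left (recip_sep S T hT hS hsep t ht) (by positivity)
    have h3 := Finset.sum_le_sum h2
    have h4 : ∑ t ∈ S, ∑ s ∈ S, ‖D s‖ ^ 2 * (1 / |t - s|) = ∑ t ∈ S, ∑ s ∈ S, ‖D t‖ ^ 2 * (1 / |t - s|) := by
      rw [Finset.sum_comm]
      apply Finset.sum_congr rfl
      intro t _
      apply Finset.sum_congr rfl
      intro s _
      rw [abs_sub_comm]
    have h5 : ∑ t ∈ S, ∑ s ∈ S, 4 * Real.pi * N * ((‖D t‖ ^ 2 + ‖D s‖ ^ 2) / 2 * (1 / |t - s|)) =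
        4 * Real.pi * N * (((∑ t ∈ S, ∑ s ∈ S, ‖D t‖ ^ 2 * (1 / |t - s|)) +
          (∑ t ∈ S, ∑ s ∈ S, ‖D s‖ ^ 2 * (1 / |t - s|))) / 2) := by
      rw [← Finset.sum_add_distrib, Finset.sum_div, Finset.mul_sum]
      apply Finset.sum_congr rfl
      intro t _
      rw [← Finset.sum_add_distrib, Finset.sum_div, Finset.mul_sum]
      apply Finset.sum_congr rfl
      intro s _
      ring
    rw [h5, h4]
    rw [← Finset.sum_mul, ← hQ] at h3
    apply mul_le_mul_of_nonneg_left _ (by positivity)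
    linarith

/-- first bound for the mean square over a dilated set -/
theorem large1 (S : Finset ℝ) (N : ℕ) (T lam : ℝ) (hT : 1 ≤ T) (hl1 : 1 ≤ lam) (hl2 : lam ≤ 2)
    (hS : ∀ t ∈ S, 0 ≤ t ∧ t ≤ T) (hsep : ∀ t ∈ S, ∀ s ∈ S, t ≠ s → 1 ≤ |t - s|)
    (a : ℕ → ℂ) :
    ∑ t ∈ S, ‖∑ n ∈ Icc 1 N, a n * E (-(lam * t) * Real.log n)‖ ^ 2 ≤
      ((N : ℝ) * (1 + 8 * Real.pi * (1 + Real.log T)) + √(Z2 S N lam)) *
        ∑ n ∈ Icc 1 N, ‖a n‖ ^ 2 := by
  set D : ℝ → ℂ := fun t => ∑ n ∈ Icc 1 N, a n * E (-(lam * t) * Real.log n) with hD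
  obtain ⟨Q, hQ⟩ : ∃ Q : ℝ, Q = ∑ t ∈ S, ‖D t‖ ^ 2 := ⟨_, rfl⟩
  obtain ⟨A, hAA⟩ : ∃ A : ℝ, A = ∑ n ∈ Icc 1 N, ‖a n‖ ^ 2 := ⟨_, rfl⟩
  have hlog : 0 ≤ Real.log T := Real.log_nonneg hT
  have hQ0 : 0 ≤ Q := by rw [hQ]; exact Finset.sum_nonneg (fun t _ => by positivity)
  have hA0 : 0 ≤ A := by rw [hAA]; exact Finset.sum_nonneg (fun t _ => by positivity)
  have hpi := Real.pi_pos
  have hA : Q ≤ ∑ n ∈ Icc 1 N, ‖a n‖ * ‖∑ t ∈ S, (starRingEnd ℂ) (D t) * E (-(lam * t) * Real.log n)‖ := by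
    have h1 : ((Q : ℝ) : ℂ) = ∑ n ∈ Icc 1 N, a n * ∑ t ∈ S, (starRingEnd ℂ) (D t) * E (-(lam * t) * Real.log n) := by
      rw [hQ, Complex.ofReal_sum]
      simp_rw [Finset.mul_sum]
      rw [Finset.sum_comm]
      apply Finset.sum_congr rfl
      intro t _
      rw [← Complex.normSq_eq_norm_sq, ← Complex.mul_conj]
      have h2 : D t = ∑ n ∈ Icc 1 N, a n * E (-(lam * t) * Real.log n) := rfl
      calc D t * (starRingEnd ℂ) (D t) = (∑ n ∈ Icc 1 N, a n * E (-(lam * t) * Real.log n)) * (starRingEnd ℂ) (D t) := by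
            rw [← h2]
        _ = ∑ n ∈ Icc 1 N, a n * ((starRingEnd ℂ) (D t) * E (-(lam * t) * Real.log n)) := by
            rw [Finset.sum_mul]
            apply Finset.sum_congr rfl
            intro n _
            ring
    have h2 : Q = ‖((Q : ℝ) : ℂ)‖ := by rw [Complex.norm_real, Real.norm_of_nonneg hQ0]
    rw [h2, h1]
    refine (norm_sum_le _ _).trans (Finset.sum_le_sum fun n _ => ?_)
    rw [norm_mul]
  have hB : Q ^ 2 ≤ A * ∑ t ∈ S, ∑ s ∈ S, ‖D t‖ * ‖D s‖ * ‖F N (lam * (t - s))‖ := by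
    have h1 := pow_le_pow_left₀ hQ0 hA 2
    have h2 := Finset.sum_mul_sq_le_sq_mul_sq (Icc 1 N) (fun n => ‖a n‖)
      (fun n => ‖∑ t ∈ S, (starRingEnd ℂ) (D t) * E (-(lam * t) * Real.log n)‖)
    have h3 := dual S N lam (fun t => (starRingEnd ℂ) (D t))
    simp only [Complex.norm_conj] at h3
    refine (h1.trans h2).trans ?_
    rw [← hAA]
    exact mul_le_mul_of_nonneg_left h3 hA0
  have hC := kernel_sum S N T lam hT hl1 hl2 hS hsep D Q hQ
  rw [← hQ, ← hAA]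
  rcases hQ0.eq_or_lt with h0 | h0
  · rw [← h0]
    have := Real.sqrt_nonneg (Z2 S N lam)
    positivity
  · have h1 : Q * Q ≤ Q * (((N : ℝ) * (1 + 8 * Real.pi * (1 + Real.log T)) + √(Z2 S N lam)) * A) := by
      have h3 := mul_le_mul_of_nonneg_left hC hA0
      have h4 : A * (N * Q + Q * √(Z2 S N lam) + 4 * Real.pi * N * (2 * (1 + Real.log T) * Q)) =
          Q * (((N : ℝ) * (1 + 8 * Real.pi * (1 + Real.log T)) + √(Z2 S N lam)) * A) := by ring
      rw [h4] at h3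
      have h5 : Q * Q = Q ^ 2 := by ring
      rw [h5]
      exact hB.trans h3
    exact le_of_mul_le_mul_left h1 h0

/-- the sum over the points -/
noncomputable def G (S : Finset ℝ) (lam c : ℝ) : ℂ := ∑ t ∈ S, E (-(lam * t) * c)

/-- Hilbert-Schmidt norm (squared) of the off-diagonal part of the Gram matrix of the integers -/
noncomputable def H2 (S : Finset ℝ) (M : ℕ) (lam : ℝ) : ℝ :=
  ∑ n ∈ Icc 1 M, ∑ m ∈ (Icc 1 M).erase n, ‖G S lam (Real.log n - Real.log m)‖ ^ 2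

theorem G_cont (S : Finset ℝ) (c : ℝ) : Continuous (fun lam => G S lam c) := by
  unfold G
  refine continuous_finsetSum _ (fun t _ => E_cont.comp ?_)
  fun_prop

theorem H2_cont (S : Finset ℝ) (M : ℕ) : Continuous (H2 S M) := by
  unfold H2
  refine continuous_finsetSum _ (fun n _ => continuous_finsetSum _ (fun m _ => ?_))
  exact (G_cont S _).norm.pow 2

theorem H2_nonneg (S : Finset ℝ) (M : ℕ) (lam : ℝ) : 0 ≤ H2 S M lam :=
  Finset.sum_nonneg (fun _ _ => Finset.sum_nonneg (fun _ _ => by positivity))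

/-- second bound for the mean square over a dilated set -/
theorem large2 (S : Finset ℝ) (M : ℕ) (lam : ℝ) (a : ℕ → ℂ) :
    ∑ t ∈ S, ‖∑ n ∈ Icc 1 M, a n * E (-(lam * t) * Real.log n)‖ ^ 2 ≤
      ((S.card : ℝ) + √(H2 S M lam)) * ∑ n ∈ Icc 1 M, ‖a n‖ ^ 2 := by
  obtain ⟨A, hAA⟩ : ∃ A : ℝ, A = ∑ n ∈ Icc 1 M, ‖a n‖ ^ 2 := ⟨_, rfl⟩
  have hA0 : 0 ≤ A := by rw [hAA]; exact Finset.sum_nonneg (fun t _ => by positivity)
  have h1 : ((∑ t ∈ S, ‖∑ n ∈ Icc 1 M, a n * E (-(lam * t) * Real.log n)‖ ^ 2 : ℝ) : ℂ) =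
      ∑ n ∈ Icc 1 M, ∑ m ∈ Icc 1 M, a n * (starRingEnd ℂ) (a m) *
        G S lam (Real.log n - Real.log m) := by
    rw [Complex.ofReal_sum]
    have h2 : ∀ t : ℝ, ((‖∑ n ∈ Icc 1 M, a n * E (-(lam * t) * Real.log n)‖ ^ 2 : ℝ) : ℂ) =
        ∑ n ∈ Icc 1 M, ∑ m ∈ Icc 1 M, a n * (starRingEnd ℂ) (a m) *
          E (-(lam * t) * (Real.log n - Real.log m)) := by
      intro t
      rw [← Complex.normSq_eq_norm_sq, ← Complex.mul_conj, map_sum, Finset.sum_mul_sum]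
      apply Finset.sum_congr rfl
      intro n _
      apply Finset.sum_congr rfl
      intro m _
      rw [map_mul, E_conj]
      have h3 : E (-(lam * t) * (Real.log n - Real.log m)) =
          E (-(lam * t) * Real.log n) * E (-(-(lam * t) * Real.log m)) := by
        rw [← E_add]; congr 1; ring
      rw [h3]
      ring
    rw [Finset.sum_congr rfl (fun t _ => h2 t), Finset.sum_comm]
    apply Finset.sum_congr rfl
    intro n _
    rw [Finset.sum_comm]
    apply Finset.sum_congr rfl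
    intro m _
    unfold G
    rw [Finset.mul_sum]
  have h3 : ∑ t ∈ S, ‖∑ n ∈ Icc 1 M, a n * E (-(lam * t) * Real.log n)‖ ^ 2 =
      ‖((∑ t ∈ S, ‖∑ n ∈ Icc 1 M, a n * E (-(lam * t) * Real.log n)‖ ^ 2 : ℝ) : ℂ)‖ := by
    rw [Complex.norm_real, Real.norm_of_nonneg]
    exact Finset.sum_nonneg (fun n _ => by positivity)
  rw [h3, h1]
  have h4 : ‖∑ n ∈ Icc 1 M, ∑ m ∈ Icc 1 M, a n * (starRingEnd ℂ) (a m) *
        G S lam (Real.log n - Real.log m)‖ ≤
      ∑ n ∈ Icc 1 M, ∑ m ∈ Icc 1 M, ‖a n‖ * ‖a m‖ * ‖G S lam (Real.log n - Real.log m)‖ := by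
    refine (norm_sum_le _ _).trans (Finset.sum_le_sum fun n _ => (norm_sum_le _ _).trans
      (Finset.sum_le_sum fun m _ => ?_))
    rw [norm_mul, norm_mul, Complex.norm_conj]
  refine h4.trans ?_
  have h5 : ∀ n ∈ Icc 1 M, ∑ m ∈ Icc 1 M, ‖a n‖ * ‖a m‖ * ‖G S lam (Real.log n - Real.log m)‖ =
      ‖a n‖ ^ 2 * S.card + ∑ m ∈ (Icc 1 M).erase n,
        ‖a n‖ * ‖a m‖ * ‖G S lam (Real.log n - Real.log m)‖ := by
    intro n hn
    rw [← Finset.add_sum_erase _ _ hn]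
    congr 1
    have h6 : G S lam (Real.log n - Real.log n) = S.card := by
      unfold G
      simp [E_zero]
    rw [h6, Complex.norm_natCast]
    ring
  rw [Finset.sum_congr rfl h5, Finset.sum_add_distrib, ← Finset.sum_mul, ← hAA, add_mul,
    mul_comm A]
  apply add_le_add le_rfl
  -- Cauchy-Schwarz
  have h7 : ∑ n ∈ Icc 1 M, ∑ m ∈ (Icc 1 M).erase n,
        ‖a n‖ * ‖a m‖ * ‖G S lam (Real.log n - Real.log m)‖ =
      ∑ p ∈ (Icc 1 M).sigma (fun n => (Icc 1 M).erase n),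
        (‖a p.1‖ * ‖a p.2‖) * ‖G S lam (Real.log p.1 - Real.log p.2)‖ := by
    rw [Finset.sum_sigma]
  rw [h7]
  refine (Real.sum_mul_le_sqrt_mul_sqrt _ _ _).trans ?_
  have h8 : ∑ p ∈ (Icc 1 M).sigma (fun n => (Icc 1 M).erase n),
      ‖G S lam (Real.log p.1 - Real.log p.2)‖ ^ 2 = H2 S M lam := by
    rw [Finset.sum_sigma]; rfl
  rw [h8, mul_comm]
  apply mul_le_mul_of_nonneg_left _ (Real.sqrt_nonneg _)
  rw [Real.sqrt_le_left hA0, Finset.sum_sigma]
  calc ∑ n ∈ Icc 1 M, ∑ m ∈ (Icc 1 M).erase n, (‖a n‖ * ‖a m‖) ^ 2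
      ≤ ∑ n ∈ Icc 1 M, ∑ m ∈ Icc 1 M, (‖a n‖ * ‖a m‖) ^ 2 := by
        apply Finset.sum_le_sum
        intro n _
        apply Finset.sum_le_sum_of_subset_of_nonneg (Finset.erase_subset _ _)
        intro _ _ _
        positivity
    _ = A ^ 2 := by
        rw [hAA, sq (∑ n ∈ Icc 1 M, ‖a n‖ ^ 2), Finset.sum_mul_sum]
        apply Finset.sum_congr rfl
        intro t _
        apply Finset.sum_congr rfl
        intro s _
        ring

/-- mean value over the dilations of the square of the sum over the points -/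
theorem G_mean (S : Finset ℝ) (T c : ℝ) (hT : 1 ≤ T) (hc : c ≠ 0)
    (hS : ∀ t ∈ S, 0 ≤ t ∧ t ≤ T) (hsep : ∀ t ∈ S, ∀ s ∈ S, t ≠ s → 1 ≤ |t - s|) :
    ∫ x in (1 : ℝ)..2, ‖G S x c‖ ^ 2 ≤ S.card * (1 + 4 * (1 + Real.log T) * (1 / |c|)) := by
  have hexp : ∀ x : ℝ, ‖G S x c‖ ^ 2 = ∑ t ∈ S, ∑ s ∈ S, Real.cos (x * ((t - s) * c)) := by
    intro x
    have h1 : ((‖G S x c‖ ^ 2 : ℝ) : ℂ) = G S x c * (starRingEnd ℂ) (G S x c) := by
      rw [Complex.mul_conj, Complex.normSq_eq_norm_sq]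
    have h2 : ‖G S x c‖ ^ 2 = (G S x c * (starRingEnd ℂ) (G S x c)).re := by
      rw [← h1, Complex.ofReal_re]
    rw [h2]
    unfold G
    rw [map_sum, Finset.sum_mul_sum, Complex.re_sum]
    apply Finset.sum_congr rfl
    intro t _
    rw [Complex.re_sum]
    apply Finset.sum_congr rfl
    intro s _
    rw [E_conj, ← E_add, E_re, ← Real.cos_neg]
    congr 1
    ring
  simp_rw [hexp]
  rw [intervalIntegral.integral_finsetSum]
  swap
  · intro n _
    apply Continuous.intervalIntegrable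
    refine continuous_finsetSum _ (fun m _ => ?_)
    fun_prop
  have hc0 : 0 < |c| := abs_pos.mpr hc
  have h1 : ∀ t ∈ S, ∫ x in (1 : ℝ)..2, ∑ s ∈ S, Real.cos (x * ((t - s) * c)) ≤
      1 + 4 * (1 + Real.log T) * (1 / |c|) := by
    intro t ht
    rw [intervalIntegral.integral_finsetSum]
    swap
    · intro m _
      apply Continuous.intervalIntegrable
      fun_prop
    have h2 : ∀ s ∈ S, ∫ x in (1 : ℝ)..2, Real.cos (x * ((t - s) * c)) ≤
        (if t = s then 1 else 0) + 2 / |c| * (1 / |t - s|) := by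
      intro s hs
      by_cases hts : t = s
      · subst hts
        rw [if_pos rfl]
        simp only [sub_self, zero_mul, mul_zero, Real.cos_zero, intervalIntegral.integral_const,
          smul_eq_mul, mul_one]
        norm_num
      · rw [if_neg hts, zero_add]
        have h3 : (t - s) * c ≠ 0 := mul_ne_zero (sub_ne_zero.mpr hts) hc
        refine (int_cos_le _ h3).trans (le_of_eq ?_)
        rw [abs_mul]
        have h4 : 0 < |t - s| := abs_pos.mpr (sub_ne_zero.mpr hts)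
        field_simp
    refine (Finset.sum_le_sum h2).trans ?_
    rw [Finset.sum_add_distrib, Finset.sum_ite_eq, if_pos ht, ← Finset.mul_sum]
    have h5 := recip_sep S T hT hS hsep t ht
    have h6 : 2 / |c| * ∑ s ∈ S, 1 / |t - s| ≤ 2 / |c| * (2 * (1 + Real.log T)) :=
      mul_le_mul_of_nonneg_left h5 (by positivity)
    have h7 : 2 / |c| * (2 * (1 + Real.log T)) = 4 * (1 + Real.log T) * (1 / |c|) := by ring
    linarith
  refine (Finset.sum_le_sum h1).trans (le_of_eq ?_)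
  rw [Finset.sum_const, nsmul_eq_mul]

/-- mean value of the second Hilbert-Schmidt norm -/
theorem H2_mean (S : Finset ℝ) (M : ℕ) (T : ℝ) (hM : 1 ≤ M) (hT : 1 ≤ T)
    (hS : ∀ t ∈ S, 0 ≤ t ∧ t ≤ T) (hsep : ∀ t ∈ S, ∀ s ∈ S, t ≠ s → 1 ≤ |t - s|) :
    ∫ x in (1 : ℝ)..2, H2 S M x ≤
      S.card * (9 * (M : ℝ) ^ 2 * (1 + Real.log T) * (1 + Real.log M)) := by
  have hlog : 0 ≤ Real.log T := Real.log_nonneg hT
  have hM0 : (1 : ℝ) ≤ M := by exact_mod_cast hM
  have hlM : 0 ≤ Real.log M := Real.log_nonneg hM0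
  unfold H2
  rw [intervalIntegral.integral_finsetSum]
  swap
  · intro t _
    apply Continuous.intervalIntegrable
    refine continuous_finsetSum _ (fun s _ => ?_)
    exact (G_cont S _).norm.pow 2
  have h1 : ∀ n ∈ Icc 1 M, ∫ x in (1 : ℝ)..2, ∑ m ∈ (Icc 1 M).erase n,
      ‖G S x (Real.log n - Real.log m)‖ ^ 2 ≤
      S.card * (M + 8 * M * (1 + Real.log T) * (1 + Real.log M)) := by
    intro n hn
    rw [intervalIntegral.integral_finsetSum]
    swap
    · intro s _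
      apply Continuous.intervalIntegrable
      exact (G_cont S _).norm.pow 2
    have h2 : ∀ m ∈ (Icc 1 M).erase n, ∫ x in (1 : ℝ)..2, ‖G S x (Real.log n - Real.log m)‖ ^ 2 ≤
        S.card * (1 + 4 * (1 + Real.log T) * (M * (1 / |(n : ℝ) - m|))) := by
      intro m hm
      have hm2 := Finset.mem_of_mem_erase hm
      have hnm : n ≠ m := (Finset.ne_of_mem_erase hm).symm
      have hg := Pool.Agent.TH705.DL.log_gap hn hm2 hnm
      have hnm' : 0 < |(n : ℝ) - m| := by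
        rw [abs_pos, sub_ne_zero]
        exact_mod_cast hnm
      have hpos : 0 < |Real.log n - Real.log m| := lt_of_lt_of_le (by positivity) hg
      refine (G_mean S T _ hT (abs_pos.mp hpos) hS hsep).trans ?_
      apply mul_le_mul_of_nonneg_left _ (by positivity)
      apply add_le_add le_rfl
      apply mul_le_mul_of_nonneg_left _ (by positivity)
      rw [mul_one_div, div_le_div_iff₀ hpos hnm', one_mul]
      rw [div_le_iff₀ (by linarith)] at hg
      linarith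
    refine (Finset.sum_le_sum h2).trans ?_
    rw [← Finset.mul_sum, Finset.sum_add_distrib, ← Finset.mul_sum, ← Finset.mul_sum]
    apply mul_le_mul_of_nonneg_left _ (by positivity)
    have h3 := sum_recip M n hn
    have h4 : (∑ _m ∈ (Icc 1 M).erase n, (1 : ℝ)) ≤ M := by
      rw [Finset.sum_const, nsmul_eq_mul, mul_one]
      have : ((Icc 1 M).erase n).card ≤ M := by
        refine (Finset.card_erase_le).trans ?_
        rw [Nat.card_Icc]
        omega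
      exact_mod_cast this
    have h5 : 4 * (1 + Real.log T) * (M * ∑ m ∈ (Icc 1 M).erase n, 1 / |(n : ℝ) - m|) ≤
        4 * (1 + Real.log T) * (M * (2 * (1 + Real.log M))) :=
      mul_le_mul_of_nonneg_left (mul_le_mul_of_nonneg_left h3 (by positivity)) (by positivity)
    linarith
  have h2 := Finset.sum_le_sum h1
  rw [Finset.sum_const, nsmul_eq_mul, Nat.card_Icc, Nat.add_sub_cancel] at h2
  refine h2.trans ?_
  have h3 : (M : ℝ) * (S.card * (M + 8 * M * (1 + Real.log T) * (1 + Real.log M))) =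
      S.card * ((M : ℝ) ^ 2 * (1 + 8 * ((1 + Real.log T) * (1 + Real.log M)))) := by ring
  rw [h3]
  apply mul_le_mul_of_nonneg_left _ (by positivity)
  have h4 : (1 : ℝ) ≤ (1 + Real.log T) * (1 + Real.log M) := by nlinarith
  have h5 : 9 * (M : ℝ) ^ 2 * (1 + Real.log T) * (1 + Real.log M) =
      (M : ℝ) ^ 2 * (9 * ((1 + Real.log T) * (1 + Real.log M))) := by ring
  rw [h5]
  apply mul_le_mul_of_nonneg_left _ (by positivity)
  linarith

/-- Chebyshev's inequality -/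
theorem cheb (f : ℝ → ℝ) (hf : Continuous f) (h0 : ∀ x, 0 ≤ f x) (K ρ : ℝ) (hρ : 0 < ρ)
    (hK : ∫ x in (1 : ℝ)..2, f x ≤ K) :
    volume {x : ℝ | x ∈ Set.Icc (1 : ℝ) 2 ∧ ρ ≤ f x} ≤ ENNReal.ofReal (K / ρ) := by
  have hsub : {x : ℝ | x ∈ Set.Icc (1 : ℝ) 2 ∧ ρ ≤ f x} ⊆
      {x : ℝ | ρ ≤ f x} ∩ Set.Icc (1 : ℝ) 2 := by
    rintro x ⟨hx, h⟩
    exact ⟨h, hx⟩
  have hmeas : MeasurableSet {x : ℝ | ρ ≤ f x} := (isClosed_le continuous_const hf).measurableSet
  have hint' : Integrable f (volume.restrict (Set.Icc (1 : ℝ) 2)) :=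
    (hf.continuousOn).integrableOn_Icc
  have h3 := mul_meas_ge_le_integral_of_nonneg (μ := volume.restrict (Set.Icc (1 : ℝ) 2)) (f := f)
    (Filter.Eventually.of_forall h0) hint' ρ
  have h4 : ∫ x, f x ∂(volume.restrict (Set.Icc (1 : ℝ) 2)) = ∫ x in (1 : ℝ)..2, f x := by
    rw [intervalIntegral.integral_of_le (by norm_num), integral_Icc_eq_integral_Ioc]
  rw [h4] at h3
  have h5 : (volume.restrict (Set.Icc (1 : ℝ) 2)).real {x : ℝ | ρ ≤ f x} =
      (volume ({x : ℝ | ρ ≤ f x} ∩ Set.Icc (1 : ℝ) 2)).toReal := by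
    unfold Measure.real
    rw [Measure.restrict_apply hmeas]
  rw [h5] at h3
  have hfin : volume ({x : ℝ | ρ ≤ f x} ∩ Set.Icc (1 : ℝ) 2) ≠ ⊤ := by
    refine ne_top_of_le_ne_top ?_ (measure_mono Set.inter_subset_right)
    rw [Real.volume_Icc]
    exact ENNReal.ofReal_ne_top
  refine (measure_mono hsub).trans ?_
  rw [← ENNReal.ofReal_toReal hfin]
  apply ENNReal.ofReal_le_ofReal
  rw [le_div_iff₀ hρ, mul_comm]
  exact h3.trans hK

end Pool.Agent.W2helper69.ID
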