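import Pool.Agent.W2helper69.ID.A

/-! # the operator of one dilated piece, normalised -/

set_option autoImplicit false

open Finset MeasureTheory

namespace Pool.Agent.W2helper69.ID

open Pool.Agent.TH181.LV Pool.Agent.TH705.DL Pool.Agent.TH705.AW
open scoped InnerProductSpace ENNReal

/-- the smaller one of the two bounds -/
noncomputable def ww (M : ℕ) (S : Finset ℝ) (T lam : ℝ) : ℝ :=
  min ((M : ℝ) * (1 + 8 * Real.pi * (1 + Real.log T)) + √(Z2 S M lam))
    ((S.card : ℝ) + √(H2 S M lam))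

theorem ww_cont (M : ℕ) (S : Finset ℝ) (T : ℝ) : Continuous (ww M S T) := by
  unfold ww
  have h1 := Z2_cont S M
  have h2 := H2_cont S M
  fun_prop

theorem ph_E (t : ℝ) (n : ℕ) : ph t n = E (t * Real.log n) := by
  rw [ph_eq]; rfl

theorem DP_bound (M : ℕ) (S : Finset ℝ) (T lam x : ℝ) (hT : 1 ≤ T) (hl1 : 1 ≤ lam) (hl2 : lam ≤ 2)
    (hS : ∀ t ∈ S, 0 ≤ t ∧ t ≤ T) (hsep : ∀ t ∈ S, ∀ s ∈ S, t ≠ s → 1 ≤ |t - s|)
    (a : ℕ → ℂ) :
    ∑ s ∈ S, ‖DP M a (x + lam * s)‖ ^ 2 ≤ ww M S T lam * ∑ n ∈ Icc 1 M, ‖a n‖ ^ 2 := by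
  obtain ⟨a', ha'⟩ : ∃ a' : ℕ → ℂ, a' = fun n => (starRingEnd ℂ) (a n * E (x * Real.log n)) :=
    ⟨_, rfl⟩
  have h1 : ∀ s : ℝ, ‖DP M a (x + lam * s)‖ = ‖∑ n ∈ Icc 1 M, a' n * E (-(lam * s) * Real.log n)‖ := by
    intro s
    rw [← Complex.norm_conj]
    congr 1
    unfold DP
    rw [map_sum]
    apply Finset.sum_congr rfl
    intro n _
    rw [ha']
    simp only
    rw [ph_E, map_mul, map_mul, E_conj, E_conj, mul_assoc, ← E_add]
    congr 2
    ring
  have h2 : ∀ n, ‖a' n‖ = ‖a n‖ := by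
    intro n
    rw [ha']
    simp only
    rw [Complex.norm_conj, norm_mul, E_norm, mul_one]
  have h3 : ∑ n ∈ Icc 1 M, ‖a n‖ ^ 2 = ∑ n ∈ Icc 1 M, ‖a' n‖ ^ 2 := by
    apply Finset.sum_congr rfl
    intro n _
    rw [h2]
  simp_rw [h1]
  rw [h3]
  have h0 : 0 ≤ ∑ n ∈ Icc 1 M, ‖a' n‖ ^ 2 := Finset.sum_nonneg (fun _ _ => by positivity)
  unfold ww
  rw [min_mul_of_nonneg _ _ h0]
  exact le_min (large1 S M T lam hT hl1 hl2 hS hsep a') (large2 S M lam a')

/-- the dilation which belongs to `u`, always in `[1,2]` -/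
noncomputable def cl (u : ℝ) : ℝ := 1 + max 0 (min u 1)

theorem cl_cont : Continuous cl := by
  unfold cl
  fun_prop

theorem cl_mem (u : ℝ) : 1 ≤ cl u ∧ cl u ≤ 2 := by
  unfold cl
  refine ⟨by linarith [le_max_left (0 : ℝ) (min u 1)], ?_⟩
  have : max 0 (min u 1) ≤ 1 := max_le (by norm_num) (min_le_right _ _)
  linarith

theorem cl_eq {u : ℝ} (h0 : 0 ≤ u) (h1 : u ≤ 1) : cl u = 1 + u := by
  unfold cl
  rw [min_eq_left h1, max_eq_right h0]

/-- the operator of a dilated piece, divided by the bound for its norm -/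
noncomputable def YD (M : ℕ) (B T x : ℝ) (S : Finset ℝ) (u : ℝ) : VV M →L[ℂ] VV M :=
  (((max B (ww M S T (cl u)))⁻¹ : ℝ) : ℂ) • ∑ s ∈ S, XX M (x + cl u * s)

theorem mx_pos {B : ℝ} (hB : 0 < B) (w : ℝ) : 0 < max B w := lt_of_lt_of_le hB (le_max_left _ _)

theorem YD_cont (M : ℕ) {B : ℝ} (hB : 0 < B) (T x : ℝ) (S : Finset ℝ) :
    Continuous (YD M B T x S) := by
  unfold YD
  have h1 := XX_cont M
  have h2 := (ww_cont M S T).comp cl_cont
  have h3 : Continuous (fun u => (max B (ww M S T (cl u)))⁻¹) := by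
    apply Continuous.inv₀
    · exact continuous_const.max h2
    · intro u
      exact (mx_pos hB _).ne'
  have h4 := cl_cont
  have h5 : Continuous (fun u : ℝ => ∑ s ∈ S, XX M (x + cl u * s)) :=
    continuous_finsetSum _ (fun s _ => h1.comp (by fun_prop))
  exact (Complex.continuous_ofReal.comp h3).smul h5

theorem YD_inner {M : ℕ} (B T x : ℝ) (S : Finset ℝ) (u : ℝ) (v w : VV M) :
    ⟪YD M B T x S u v, w⟫_ℂ = (((max B (ww M S T (cl u)))⁻¹ : ℝ) : ℂ) *
      ∑ s ∈ S, (starRingEnd ℂ) (DP M (ext0 v) (x + cl u * s)) * DP M (ext0 w) (x + cl u * s) := by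
  unfold YD
  rw [smul_apply, inner_smul_left, Complex.conj_ofReal,
    _root_.sum_apply, sum_inner]
  simp only [XX_inner]

theorem YD_inner' {M : ℕ} (B T x : ℝ) (S : Finset ℝ) (u : ℝ) (v w : VV M) :
    ⟪v, YD M B T x S u w⟫_ℂ = (((max B (ww M S T (cl u)))⁻¹ : ℝ) : ℂ) *
      ∑ s ∈ S, (starRingEnd ℂ) (DP M (ext0 v) (x + cl u * s)) * DP M (ext0 w) (x + cl u * s) := by
  unfold YD
  rw [smul_apply, inner_smul_right,
    _root_.sum_apply, inner_sum]
  simp only [XX_inner']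

theorem YD_qf {M : ℕ} (B T x : ℝ) (S : Finset ℝ) (u : ℝ) (v : VV M) :
    qf (YD M B T x S u : Module.End ℂ (VV M)) v =
      (max B (ww M S T (cl u)))⁻¹ * ∑ s ∈ S, ‖DP M (ext0 v) (x + cl u * s)‖ ^ 2 := by
  unfold qf
  rw [ContinuousLinearMap.coe_coe, YD_inner, Complex.re_ofReal_mul, Complex.re_sum]
  congr 1
  apply Finset.sum_congr rfl
  intro p _
  rw [Complex.conj_mul', ← Complex.ofReal_pow, Complex.ofReal_re]

theorem YD_fam {M : ℕ} (hM : 1 ≤ M) {B h T : ℝ} (hB : 0 < B) (hh : 1 ≤ h) (hT : 1 ≤ T) (x : ℝ)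
    (S : Finset ℝ) (hS : ∀ s ∈ S, h ≤ s ∧ s ≤ T)
    (hsep : ∀ t ∈ S, ∀ s ∈ S, t ≠ s → 1 ≤ |t - s|) :
    Fam 1 (S.card / B * (1 + 4 * M * (1 + Real.log M) / h)) (YD M B T x S) := by
  have hM1 : (1:ℝ) ≤ M := by exact_mod_cast hM
  have hL : 0 ≤ Real.log M := Real.log_nonneg hM1
  refine ⟨YD_cont M hB T x S, ?_, ?_, ?_, ?_⟩
  · intro u v w
    rw [ContinuousLinearMap.coe_coe, YD_inner, YD_inner']
  · intro u v
    rw [YD_qf]
    have h1 : 0 ≤ ∑ s ∈ S, ‖DP M (ext0 v) (x + cl u * s)‖ ^ 2 := sum_nonneg fun _ _ => by positivity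
    have h2 := mx_pos hB (ww M S T (cl u))
    positivity
  · intro u v
    rw [YD_qf, inv_mul_le_iff₀ (mx_pos hB _)]
    have h1 := DP_bound M S T (cl u) x hT (cl_mem u).1 (cl_mem u).2
      (fun t ht => ⟨by linarith [(hS t ht).1], (hS t ht).2⟩) hsep (ext0 v)
    rw [norm_ext0] at h1
    refine h1.trans ?_
    exact mul_le_mul_of_nonneg_right (le_max_right _ _) (by positivity)
  · intro v
    have hc := DP_cont M (ext0 v)
    have hmono : ∫ u in (0:ℝ)..1, qf (YD M B T x S u : Module.End ℂ (VV M)) v ≤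
        ∫ u in (0:ℝ)..1, B⁻¹ * ∑ s ∈ S, ‖DP M (ext0 v) (x + s + s * u)‖ ^ 2 := by
      apply intervalIntegral.integral_mono_on (by norm_num)
      · exact (qf_cont (YD_cont M hB T x S) v).intervalIntegrable _ _
      · apply Continuous.intervalIntegrable
        fun_prop
      · intro u hu
        rw [YD_qf, cl_eq hu.1 hu.2]
        have e : ∀ s : ℝ, x + (1 + u) * s = x + s + s * u := fun s => by ring
        simp_rw [e]
        apply mul_le_mul_of_nonneg_right _ (sum_nonneg fun _ _ => by positivity)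
        exact inv_anti₀ hB (le_max_left _ _)
    refine hmono.trans ?_
    rw [intervalIntegral.integral_const_mul, intervalIntegral.integral_finsetSum (by
      intro p _; apply Continuous.intervalIntegrable; fun_prop)]
    have h1 : ∀ s ∈ S, ∫ u in (0:ℝ)..1, ‖DP M (ext0 v) (x + s + s * u)‖ ^ 2 ≤
        (1 + 4 * M * (1 + Real.log M) / h) * ‖v‖ ^ 2 := by
      intro s hs
      have hs0 : 0 < s := by linarith [(hS s hs).1]
      have e := intervalIntegral.integral_comp_add_mul (a := 0) (b := 1)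
        (fun t => ‖DP M (ext0 v) t‖ ^ 2) hs0.ne' (x + s)
      rw [e, smul_eq_mul, mul_zero, mul_one, add_zero]
      have h2 := mean_value M hM (ext0 v) (x + s) (x + s + s) (by linarith)
      rw [norm_ext0] at h2
      have h3 := mul_le_mul_of_nonneg_left h2 (inv_nonneg.2 hs0.le)
      refine h3.trans ?_
      rw [← mul_assoc]
      apply mul_le_mul_of_nonneg_right _ (by positivity)
      have h4 : s⁻¹ * (x + s + s - (x + s) + 4 * M * (1 + Real.log M)) =
          1 + 4 * M * (1 + Real.log M) / s := by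
        field_simp
        ring
      rw [h4]
      apply add_le_add le_rfl
      exact div_le_div_of_nonneg_left (by positivity) (by linarith) (hS s hs).1
    have h2 := Finset.sum_le_sum h1
    rw [sum_const, nsmul_eq_mul] at h2
    have h3 := mul_le_mul_of_nonneg_left h2 (inv_nonneg.2 hB.le)
    refine h3.trans (le_of_eq ?_)
    field_simp

end Pool.Agent.W2helper69.ID
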