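import Pool.Agent.W2helper69.ID.B

/-! # independent dilations: the large sieve inequality -/

set_option autoImplicit false

open Finset MeasureTheory

namespace Pool.Agent.W2helper69.ID

open Pool.Agent.TH181.LV Pool.Agent.TH705.DL Pool.Agent.TH705.AW
open scoped InnerProductSpace ENNReal

/-- Chebyshev's inequality for one coordinate of a point of the unit cube -/
theorem cheb_pi {ι : Type*} [Fintype ι] (j : ι) (f : ℝ → ℝ) (hf : Continuous f)
    (h0 : ∀ x, 0 ≤ f x) (K ρ : ℝ) (hρ : 0 < ρ) (hK : ∫ x in (1 : ℝ)..2, f x ≤ K) :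
    volume {u : ι → ℝ | (∀ i, u i ∈ Set.Icc (0 : ℝ) 1) ∧ ρ ≤ f (1 + u j)} ≤
      ENNReal.ofReal (K / ρ) := by
  classical
  obtain ⟨A, hA⟩ : ∃ A : ι → Set ℝ, A = fun i => if i = j then
    {y : ℝ | y ∈ Set.Icc (0 : ℝ) 1 ∧ ρ ≤ f (1 + y)} else Set.Icc (0 : ℝ) 1 := ⟨_, rfl⟩
  have hsub : {u : ι → ℝ | (∀ i, u i ∈ Set.Icc (0 : ℝ) 1) ∧ ρ ≤ f (1 + u j)} ⊆
      Set.univ.pi A := by
    rintro u ⟨hu, h⟩ i _
    rw [hA]
    simp only
    split_ifs with hi
    · subst hi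
      exact ⟨hu i, h⟩
    · exact hu i
  refine (measure_mono hsub).trans ?_
  rw [volume_pi_pi, ← Finset.mul_prod_erase _ _ (Finset.mem_univ j)]
  have h1 : ∏ i ∈ Finset.univ.erase j, volume (A i) = 1 := by
    apply Finset.prod_eq_one
    intro i hi
    rw [hA]
    simp only
    rw [if_neg (Finset.ne_of_mem_erase hi), Real.volume_Icc]
    norm_num
  rw [h1, mul_one]
  have h2 : A j = (fun y : ℝ => 1 + y) ⁻¹' {x : ℝ | x ∈ Set.Icc (1 : ℝ) 2 ∧ ρ ≤ f x} := by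
    rw [hA]
    simp only [if_true]
    ext y
    simp only [Set.mem_Icc, Set.mem_setOf_eq, Set.mem_preimage]
    constructor
    · rintro ⟨⟨h3, h4⟩, h5⟩
      exact ⟨⟨by linarith, by linarith⟩, h5⟩
    · rintro ⟨⟨h3, h4⟩, h5⟩
      exact ⟨⟨by linarith, by linarith⟩, h5⟩
  rw [h2, measure_preimage_add]
  exact cheb f hf h0 K ρ hρ hK

/-- Markov's inequality for the number of points in bad pieces -/
theorem markov_pi {ι : Type*} [Fintype ι] (F : ι → Set (ι → ℝ)) (hF : ∀ j, MeasurableSet (F j))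
    (c : ι → ℝ) (hc : ∀ j, 0 ≤ c j) (p θ : ℝ) (hp : 0 ≤ p) (hθ : 0 < θ)
    (hv : ∀ j, volume (F j) ≤ ENNReal.ofReal p) (hR : 0 < ∑ j, c j) :
    volume {u : ι → ℝ | ENNReal.ofReal (θ * ∑ j, c j) ≤
      ∑ j, (F j).indicator (fun _ => ENNReal.ofReal (c j)) u} ≤ ENNReal.ofReal (p / θ) := by
  have h0 : (0:ℝ) < θ * ∑ j, c j := mul_pos hθ hR
  have h1 := mul_meas_ge_le_lintegral₀ (μ := (volume : Measure (ι → ℝ)))
    (f := fun u => ∑ j, (F j).indicator (fun _ => ENNReal.ofReal (c j)) u)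
    (Finset.aemeasurable_fun_sum _ (fun j _ =>
      (measurable_const.indicator (hF j)).aemeasurable)) (ENNReal.ofReal (θ * ∑ j, c j))
  have h2 : ∫⁻ u : ι → ℝ, ∑ j, (F j).indicator (fun _ => ENNReal.ofReal (c j)) u ≤
      ENNReal.ofReal (p * ∑ j, c j) := by
    rw [lintegral_finsetSum _ (fun j _ => measurable_const.indicator (hF j))]
    calc ∑ j, ∫⁻ u : ι → ℝ, (F j).indicator (fun _ => ENNReal.ofReal (c j)) u
        = ∑ j, ENNReal.ofReal (c j) * volume (F j) := by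
          apply Finset.sum_congr rfl
          intro j _
          rw [lintegral_indicator_const (hF j)]
      _ ≤ ∑ j, ENNReal.ofReal (c j) * ENNReal.ofReal p :=
          Finset.sum_le_sum (fun j _ => mul_le_mul_right (hv j) _)
      _ = ENNReal.ofReal (p * ∑ j, c j) := by
          rw [Finset.mul_sum, ENNReal.ofReal_sum_of_nonneg (fun j _ => mul_nonneg hp (hc j))]
          apply Finset.sum_congr rfl
          intro j _
          rw [mul_comm, ← ENNReal.ofReal_mul hp]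
  have h3 := h1.trans h2
  have h4 : ENNReal.ofReal (θ * ∑ j, c j) ≠ 0 := by
    rw [Ne, ENNReal.ofReal_eq_zero, not_le]
    exact h0
  have h5 : volume {u : ι → ℝ | ENNReal.ofReal (θ * ∑ j, c j) ≤
      ∑ j, (F j).indicator (fun _ => ENNReal.ofReal (c j)) u} ≤
      ENNReal.ofReal (p * ∑ j, c j) / ENNReal.ofReal (θ * ∑ j, c j) := by
    rw [ENNReal.le_div_iff_mul_le (Or.inl h4) (Or.inl ENNReal.ofReal_ne_top), mul_comm]
    exact h3
  refine h5.trans (le_of_eq ?_)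
  rw [← ENNReal.ofReal_div_of_pos h0]
  congr 1
  field_simp

/-- the main inequality, with the explicit quantities -/
theorem main {ι : Type*} [Fintype ι] (N : ℕ) (hN : 1 ≤ N) (T h δ θ m : ℝ) (hh : 1 ≤ h)
    (hT : 1 ≤ T) (hδ : 0 < δ) (hθ : 0 < θ) (S : ι → Finset ℝ) (hS : ∀ j, ∀ s ∈ S j, h ≤ s ∧ s ≤ T)
    (hsep : ∀ j, ∀ t ∈ S j, ∀ s ∈ S j, t ≠ s → 1 ≤ |t - s|) (x : ι → ℝ)
    (hm : ∀ j, ((S j).card : ℝ) ≤ m) (hR : 0 < ∑ j, ((S j).card : ℝ)) (B : ℝ)
    (hB : B = min (((2 * N : ℕ) : ℝ) * (1 + 8 * Real.pi * (1 + Real.log T)) +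
        √(4 / (θ * δ) * (m ^ 2 * (9 * (2 * N : ℕ) * (1 + Real.log (2 * T))))))
      (m + √(4 / (θ * δ) * (m *
        (9 * ((2 * N : ℕ) : ℝ) ^ 2 * (1 + Real.log T) * (1 + Real.log (2 * N : ℕ))))))) :
    ∃ E : Set (ι → ℝ), MeasurableSet E ∧ volume E ≤ ENNReal.ofReal δ ∧
      ∀ u : ι → ℝ, (∀ j, u j ∈ Set.Icc (0 : ℝ) 1) → u ∉ E → ∃ G : Finset ι,
        (1 - θ) * ∑ j, ((S j).card : ℝ) ≤ ∑ j ∈ G, ((S j).card : ℝ) ∧
        ∀ b : ℕ → ℂ,
        ∑ j ∈ G, ∑ s ∈ S j, ‖∑ n ∈ Icc N (2 * N), b n * ph (x j + (1 + u j) * s) n‖ ^ 2 ≤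
          ((Real.exp 1 - 1) * ((∑ j, ((S j).card : ℝ)) *
            (1 + 4 * ((2 * N : ℕ) : ℝ) * (1 + Real.log (2 * N : ℕ)) / h)) +
            B * Real.log (2 * (2 * N) / δ)) * ∑ n ∈ Icc N (2 * N), ‖b n‖ ^ 2 := by
  classical
  obtain ⟨M, hM⟩ : ∃ M : ℕ, M = 2 * N := ⟨_, rfl⟩
  rw [← hM] at hB
  obtain ⟨R, hRR⟩ : ∃ R : ℝ, R = ∑ j, ((S j).card : ℝ) := ⟨_, rfl⟩
  rw [← hRR] at hR ⊢
  have hN1 : (1:ℝ) ≤ N := by exact_mod_cast hN
  have hN0 : (0:ℝ) < N := by linarith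
  have hMN : (M : ℝ) = 2 * N := by rw [hM]; push_cast; ring
  have hM1 : (1:ℝ) ≤ M := by rw [hMN]; linarith
  have hM0 : (0:ℝ) < M := by linarith
  have hMn : 1 ≤ M := by omega
  have hlT : 0 ≤ Real.log T := Real.log_nonneg hT
  have hl2T : 0 ≤ Real.log (2 * T) := Real.log_nonneg (by linarith)
  have hlM : 0 ≤ Real.log M := Real.log_nonneg hM1
  have hpi := Real.pi_pos
  -- a nonempty piece
  obtain ⟨j₀, hj₀⟩ : ∃ j, 0 < ((S j).card : ℝ) := by
    by_contra hc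
    push Not at hc
    have : R ≤ 0 := by
      rw [hRR]
      exact Finset.sum_nonpos (fun j _ => hc j)
    linarith
  have hm0 : 0 < m := lt_of_lt_of_le hj₀ (hm j₀)
  obtain ⟨ρ₁, hρ₁⟩ : ∃ ρ : ℝ, ρ = 4 / (θ * δ) * (m ^ 2 * (9 * M * (1 + Real.log (2 * T)))) :=
    ⟨_, rfl⟩
  obtain ⟨ρ₂, hρ₂⟩ : ∃ ρ : ℝ, ρ = 4 / (θ * δ) * (m * (9 * (M : ℝ) ^ 2 * (1 + Real.log T) *
    (1 + Real.log M))) := ⟨_, rfl⟩
  rw [← hρ₁, ← hρ₂] at hB
  have hρ₁0 : 0 < ρ₁ := by rw [hρ₁]; positivity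
  have hρ₂0 : 0 < ρ₂ := by rw [hρ₂]; positivity
  have hB0 : 0 < B := by
    rw [hB]
    apply lt_min
    · have := Real.sqrt_nonneg ρ₁
      positivity
    · have := Real.sqrt_nonneg ρ₂
      linarith
  have hS0 : ∀ j, ∀ t ∈ S j, 0 ≤ t ∧ t ≤ T := fun j t ht =>
    ⟨by linarith [(hS j t ht).1], (hS j t ht).2⟩
  -- the family
  obtain ⟨κ, hκ⟩ : ∃ κ : ι → ℝ, κ = fun j => (S j).card / B *
    (1 + 4 * M * (1 + Real.log M) / h) := ⟨_, rfl⟩
  have hκ0 : ∀ j, 0 ≤ κ j := fun j => by rw [hκ]; positivity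
  have hfam : ∀ j, Fam 1 (κ j) (YD M B T (x j) (S j)) := by
    intro j
    rw [hκ]
    exact YD_fam hMn hB0 hh hT (x j) (S j) (hS j) (hsep j)
  obtain ⟨s, hs⟩ : ∃ s : ℝ, s = (Real.exp 1 - 1) * ∑ j, κ j + Real.log (2 * M / δ) := ⟨_, rfl⟩
  have htail := tail zero_le_one κ hκ0 (fun j => YD M B T (x j) (S j)) hfam s
  obtain ⟨E₀, hE₀⟩ : ∃ E₀ : Set (ι → ℝ), E₀ = {y : ι → ℝ | (∀ i, y i ∈ Set.Icc (0:ℝ) 1) ∧
    ∃ v : VV M, ‖v‖ = 1 ∧
        s ≤ ∑ i, qf (YD M B T (x i) (S i) (y i) : Module.End ℂ (VV M)) v} := ⟨_, rfl⟩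
  rw [← hE₀] at htail
  -- the bad pieces
  obtain ⟨F, hF⟩ : ∃ F : ι → Set (ι → ℝ), F = fun j => {u : ι → ℝ |
    (∀ i, u i ∈ Set.Icc (0 : ℝ) 1) ∧ ρ₁ ≤ Z2 (S j) M (1 + u j)} ∪ {u : ι → ℝ |
    (∀ i, u i ∈ Set.Icc (0 : ℝ) 1) ∧ ρ₂ ≤ H2 (S j) M (1 + u j)} := ⟨_, rfl⟩
  have hcube : MeasurableSet {u : ι → ℝ | ∀ i, u i ∈ Set.Icc (0 : ℝ) 1} := by
    have : {u : ι → ℝ | ∀ i, u i ∈ Set.Icc (0 : ℝ) 1} = Set.univ.pi (fun _ => Set.Icc (0 : ℝ) 1) := by
      ext u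
      simp only [Set.mem_setOf_eq, Set.mem_univ_pi]
    rw [this]
    exact MeasurableSet.univ_pi (fun _ => measurableSet_Icc)
  have hFm : ∀ j, MeasurableSet (F j) := by
    intro j
    rw [hF]
    have h1 : MeasurableSet {u : ι → ℝ | ρ₁ ≤ Z2 (S j) M (1 + u j)} :=
      (isClosed_le continuous_const ((Z2_cont (S j) M).comp (by fun_prop))).measurableSet
    have h2 : MeasurableSet {u : ι → ℝ | ρ₂ ≤ H2 (S j) M (1 + u j)} :=
      (isClosed_le continuous_const ((H2_cont (S j) M).comp (by fun_prop))).measurableSet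
    exact (hcube.inter h1).union (hcube.inter h2)
  have hFv : ∀ j, volume (F j) ≤ ENNReal.ofReal (θ * δ / 2) := by
    intro j
    rw [hF]
    have hc0 : (0:ℝ) ≤ (S j).card := Nat.cast_nonneg _
    have h1 : volume {u : ι → ℝ | (∀ i, u i ∈ Set.Icc (0 : ℝ) 1) ∧
        ρ₁ ≤ Z2 (S j) M (1 + u j)} ≤ ENNReal.ofReal (θ * δ / 4) := by
      refine (cheb_pi j (Z2 (S j) M) (Z2_cont _ _) (Z2_nonneg _ _) _ ρ₁ hρ₁0
        (Z2_mean (S j) M T hMn hT (hS0 j) (hsep j))).trans ?_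
      apply ENNReal.ofReal_le_ofReal
      rw [div_le_iff₀ hρ₁0, hρ₁]
      have h3 : θ * δ / 4 * (4 / (θ * δ) * (m ^ 2 * (9 * M * (1 + Real.log (2 * T))))) =
          m ^ 2 * (9 * M * (1 + Real.log (2 * T))) := by
        field_simp
      rw [h3]
      exact mul_le_mul_of_nonneg_right (pow_le_pow_left₀ hc0 (hm j) 2) (by positivity)
    have h2 : volume {u : ι → ℝ | (∀ i, u i ∈ Set.Icc (0 : ℝ) 1) ∧
        ρ₂ ≤ H2 (S j) M (1 + u j)} ≤ ENNReal.ofReal (θ * δ / 4) := by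
      refine (cheb_pi j (H2 (S j) M) (H2_cont _ _) (H2_nonneg _ _) _ ρ₂ hρ₂0
        (H2_mean (S j) M T hMn hT (hS0 j) (hsep j))).trans ?_
      apply ENNReal.ofReal_le_ofReal
      rw [div_le_iff₀ hρ₂0, hρ₂]
      have h3 : θ * δ / 4 * (4 / (θ * δ) * (m * (9 * (M : ℝ) ^ 2 * (1 + Real.log T) *
          (1 + Real.log M)))) = m * (9 * (M : ℝ) ^ 2 * (1 + Real.log T) * (1 + Real.log M)) := by
        field_simp
      rw [h3]
      exact mul_le_mul_of_nonneg_right (hm j) (by positivity)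
    have h3 : ENNReal.ofReal (θ * δ / 2) =
        ENNReal.ofReal (θ * δ / 4) + ENNReal.ofReal (θ * δ / 4) := by
      rw [← ENNReal.ofReal_add (by positivity) (by positivity)]
      congr 1
      ring
    rw [h3]
    exact (measure_union_le _ _).trans (add_le_add h1 h2)
  obtain ⟨E₁, hE₁⟩ : ∃ E₁ : Set (ι → ℝ), E₁ = {u : ι → ℝ | ENNReal.ofReal (θ * R) ≤
      ∑ j, (F j).indicator (fun _ => ENNReal.ofReal ((S j).card : ℝ)) u} := ⟨_, rfl⟩
  have hv0 : volume E₀ ≤ ENNReal.ofReal (δ / 2) := by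
    refine htail.trans (le_of_eq ?_)
    congr 1
    have hfr : (Module.finrank ℂ (VV M) : ℝ) = M := by
      rw [finrank_euclideanSpace, Fintype.card_coe, Nat.card_Icc, Nat.add_sub_cancel]
    have hq : (0:ℝ) < 2 * M / δ := by positivity
    rw [hfr, hs, neg_add, Real.exp_add, Real.exp_neg (Real.log (2 * M / δ)), Real.exp_log hq,
      Real.exp_neg, one_pow]
    have := Real.exp_pos ((Real.exp 1 - 1) * ∑ j, κ j)
    field_simp
  have hv1 : volume E₁ ≤ ENNReal.ofReal (δ / 2) := by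
    rw [hE₁, hRR]
    refine (markov_pi F hFm (fun j => ((S j).card : ℝ)) (fun j => Nat.cast_nonneg _)
      (θ * δ / 2) θ (by positivity) hθ hFv (by rw [← hRR]; exact hR)).trans (le_of_eq ?_)
    congr 1
    field_simp
  refine ⟨toMeasurable volume (E₀ ∪ E₁), measurableSet_toMeasurable _ _, ?_, ?_⟩
  · rw [measure_toMeasurable]
    have h3 : ENNReal.ofReal δ = ENNReal.ofReal (δ / 2) + ENNReal.ofReal (δ / 2) := by
      rw [← ENNReal.ofReal_add (by positivity) (by positivity)]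
      congr 1
      ring
    rw [h3]
    exact (measure_union_le _ _).trans (add_le_add hv0 hv1)
  · intro u hu huE
    have huE' : u ∉ E₀ ∪ E₁ := fun hc => huE (subset_toMeasurable _ _ hc)
    rw [Set.mem_union] at huE'
    push Not at huE'
    obtain ⟨huE₀, huE₁⟩ := huE'
    refine ⟨Finset.univ.filter (fun j => u ∉ F j), ?_, ?_⟩
    · rw [hE₁] at huE₁
      simp only [Set.mem_setOf_eq, not_le] at huE₁
      have h1 : ∑ j, (F j).indicator (fun _ => ENNReal.ofReal ((S j).card : ℝ)) u =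
          ENNReal.ofReal (∑ j ∈ Finset.univ.filter (fun j => u ∈ F j), ((S j).card : ℝ)) := by
        rw [ENNReal.ofReal_sum_of_nonneg (fun j _ => Nat.cast_nonneg _), Finset.sum_filter]
        apply Finset.sum_congr rfl
        intro j _
        rw [Set.indicator_apply]
      rw [h1] at huE₁
      have h2 := ((ENNReal.ofReal_lt_ofReal_iff (by positivity)).1 huE₁).le
      have h3 := Finset.sum_filter_add_sum_filter_not Finset.univ (fun j => u ∈ F j)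
        (fun j => ((S j).card : ℝ))
      rw [← hRR] at h3
      linarith
    intro b
    have hw : ∀ j, u ∉ F j → ww M (S j) T (1 + u j) ≤ B := by
      intro j hj
      rw [hF] at hj
      simp only [Set.mem_union, Set.mem_setOf_eq, not_or, not_and, not_le] at hj
      have h1 : Z2 (S j) M (1 + u j) ≤ ρ₁ := (hj.1 hu).le
      have h2 : H2 (S j) M (1 + u j) ≤ ρ₂ := (hj.2 hu).le
      rw [hB]
      unfold ww
      apply min_le_min
      · exact add_le_add le_rfl (Real.sqrt_le_sqrt h1)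
      · exact add_le_add (hm j) (Real.sqrt_le_sqrt h2)
    have hall : ∀ v : VV M, ‖v‖ = 1 →
        ∑ i, qf (YD M B T (x i) (S i) (u i) : Module.End ℂ (VV M)) v ≤ s := by
      intro v hv
      by_contra hc
      apply huE₀
      rw [hE₀]
      exact ⟨hu, v, hv, (not_le.1 hc).le⟩
    have hall' : ∀ v : VV M,
        ∑ i, qf (YD M B T (x i) (S i) (u i) : Module.End ℂ (VV M)) v ≤ s * ‖v‖ ^ 2 := by
      intro v
      by_cases hv : v = 0
      · subst hv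
        simp [qf]
      · have hv0 : ‖v‖ ≠ 0 := norm_ne_zero_iff.2 hv
        have hv1 : ‖((‖v‖⁻¹ : ℝ) : ℂ) • v‖ = 1 := by
          rw [norm_smul, Complex.norm_real, norm_inv, norm_norm, inv_mul_cancel₀ hv0]
        have h1 := hall _ hv1
        simp only [qf_smul] at h1
        rw [← Finset.mul_sum, Complex.norm_real, norm_inv, norm_norm, inv_pow,
          inv_mul_le_iff₀ (by positivity)] at h1
        linarith
    subst hM
    have h1 := hall' (vb N b)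
    have h3 : ∑ i ∈ Finset.univ.filter (fun j => u ∉ F j),
        qf (YD (2 * N) B T (x i) (S i) (u i) : Module.End ℂ (VV (2 * N))) (vb N b) ≤
        ∑ i, qf (YD (2 * N) B T (x i) (S i) (u i) : Module.End ℂ (VV (2 * N))) (vb N b) := by
      apply Finset.sum_le_sum_of_subset_of_nonneg (Finset.filter_subset _ _)
      intro i _ _
      rw [YD_qf]
      have h5 := mx_pos hB0 (ww (2 * N) (S i) T (cl (u i)))
      have h6 : 0 ≤ ∑ s ∈ S i, ‖DP (2 * N) (ext0 (vb N b)) (x i + cl (u i) * s)‖ ^ 2 :=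
        Finset.sum_nonneg fun _ _ => by positivity
      positivity
    have h2 : ∀ i ∈ Finset.univ.filter (fun j => u ∉ F j),
        qf (YD (2 * N) B T (x i) (S i) (u i) : Module.End ℂ (VV (2 * N))) (vb N b) =
        B⁻¹ * ∑ s ∈ S i, ‖∑ n ∈ Icc N (2 * N), b n * ph (x i + (1 + u i) * s) n‖ ^ 2 := by
      intro i hi
      rw [YD_qf, cl_eq (hu i).1 (hu i).2, max_eq_left (hw i (Finset.mem_filter.1 hi).2)]
      congr 1
      apply Finset.sum_congr rfl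
      intro t _
      rw [DP_vb N hN]
    rw [Finset.sum_congr rfl h2, ← Finset.mul_sum] at h3
    have h4 := h3.trans h1
    rw [inv_mul_le_iff₀ hB0, norm_vb N hN] at h4
    refine h4.trans (le_of_eq ?_)
    rw [← mul_assoc]
    congr 1
    rw [hs, hκ, ← Finset.sum_mul, ← Finset.sum_div, ← hRR, hMN]
    field_simp

end Pool.Agent.W2helper69.ID
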