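import Pool.Agent.W2helper69.ID.C

/-! # independent dilations: simplified forms -/

set_option autoImplicit false

open Finset MeasureTheory

namespace Pool.Agent.W2helper69.ID

open Pool.Agent.TH181.LV Pool.Agent.TH705.DL

/-- the factor with the logarithms -/
theorem logs {N : ℕ} (hN : 1 ≤ N) {T : ℝ} (hT : 1 ≤ T) :
    1 + Real.log T ≤ 1 + Real.log (2 * N * T) ∧ 1 + Real.log (2 * T) ≤ 1 + Real.log (2 * N * T) ∧
    1 + Real.log ((2 * N : ℕ) : ℝ) ≤ 1 + Real.log (2 * N * T) ∧ 0 ≤ Real.log (2 * N * T) := by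
  have hN1 : (1:ℝ) ≤ N := by exact_mod_cast hN
  have h1 : (1 : ℝ) ≤ N * T := by nlinarith
  refine ⟨?_, ?_, ?_, ?_⟩
  · have := Real.log_le_log (by linarith : 0 < T) (by nlinarith : T ≤ 2 * N * T)
    linarith
  · have := Real.log_le_log (by linarith : 0 < 2 * T) (by nlinarith : 2 * T ≤ 2 * N * T)
    linarith
  · have := Real.log_le_log (by push_cast; linarith : (0 : ℝ) < ((2 * N : ℕ) : ℝ))
      (by push_cast; nlinarith : ((2 * N : ℕ) : ℝ) ≤ 2 * N * T)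
    linarith
  · exact Real.log_nonneg (by nlinarith)

/-- the bound for the norm of one piece, first alternative -/
theorem B1_le {N : ℕ} (hN : 1 ≤ N) {T δ Q : ℝ} (hT : 1 ≤ T) (hδ : 0 < δ) (hQ : 0 ≤ Q) :
    ((2 * N : ℕ) : ℝ) * (1 + 8 * Real.pi * (1 + Real.log T)) +
        √(4 / δ * (Q * (9 * (2 * N : ℕ) * (1 + Real.log (2 * T))))) ≤
      54 * (1 + Real.log (2 * N * T)) * (N + √(N * Q / δ)) := by
  have hN1 : (1:ℝ) ≤ N := by exact_mod_cast hN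
  obtain ⟨h1, h2, h3, h4⟩ := logs hN hT
  obtain ⟨L, hL⟩ : ∃ L : ℝ, L = 1 + Real.log (2 * N * T) := ⟨_, rfl⟩
  rw [← hL] at h1 h2 h3 ⊢
  have hL1 : 1 ≤ L := by rw [hL]; linarith
  have hlT : 0 ≤ Real.log T := Real.log_nonneg hT
  have hl2T : 0 ≤ Real.log (2 * T) := Real.log_nonneg (by linarith)
  have hpi := Real.pi_lt_d2
  have hpi0 := Real.pi_pos
  have hs : √(4 / δ * (Q * (9 * (2 * N : ℕ) * (1 + Real.log (2 * T))))) ≤
      9 * L * √(N * Q / δ) := by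
    apply Real.sqrt_le_iff.2
    refine ⟨by positivity, ?_⟩
    rw [mul_pow, Real.sq_sqrt (by positivity)]
    have h5 : 4 / δ * (Q * (9 * ((2 * N : ℕ) : ℝ) * (1 + Real.log (2 * T)))) =
        (72 * (1 + Real.log (2 * T))) * (N * Q / δ) := by
      push_cast
      field_simp
      ring
    rw [h5]
    apply mul_le_mul_of_nonneg_right _ (by positivity)
    nlinarith
  have hf : ((2 * N : ℕ) : ℝ) * (1 + 8 * Real.pi * (1 + Real.log T)) ≤ 54 * L * N := by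
    push_cast
    have h6 : 1 + 8 * Real.pi * (1 + Real.log T) ≤ 27 * L := by
      have h7 : 8 * Real.pi * (1 + Real.log T) ≤ 26 * L := by
        have : 8 * Real.pi ≤ 26 := by linarith
        exact mul_le_mul this h1 (by linarith) (by norm_num)
      linarith
    nlinarith
  have h8 := Real.sqrt_nonneg (N * Q / δ)
  have h9 : 9 * L * √(N * Q / δ) ≤ 54 * L * √(N * Q / δ) :=
    mul_le_mul_of_nonneg_right (by linarith) h8
  rw [mul_add]
  linarith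

/-- the bound for the norm of one piece, second alternative -/
theorem B2_le {N : ℕ} (hN : 1 ≤ N) {T δ m R : ℝ} (hT : 1 ≤ T) (hδ : 0 < δ) (hR : 0 ≤ R)
    (hm : 0 ≤ m) :
    (m + √(4 / δ * (R * (9 * ((2 * N : ℕ) : ℝ) ^ 2 * (1 + Real.log T) *
        (1 + Real.log (2 * N : ℕ)))))) ≤
      54 * (1 + Real.log (2 * N * T)) * (m + N * √(R / δ)) := by
  have hN1 : (1:ℝ) ≤ N := by exact_mod_cast hN
  obtain ⟨h1, h2, h3, h4⟩ := logs hN hT
  obtain ⟨L, hL⟩ : ∃ L : ℝ, L = 1 + Real.log (2 * N * T) := ⟨_, rfl⟩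
  rw [← hL] at h1 h2 h3 ⊢
  have hL1 : 1 ≤ L := by rw [hL]; linarith
  have hlT : 0 ≤ Real.log T := Real.log_nonneg hT
  have hl2N : 0 ≤ Real.log ((2 * N : ℕ) : ℝ) := Real.log_nonneg (by push_cast; linarith)
  have hs : √(4 / δ * (R * (9 * ((2 * N : ℕ) : ℝ) ^ 2 * (1 + Real.log T) *
        (1 + Real.log (2 * N : ℕ))))) ≤ 12 * L * (N * √(R / δ)) := by
    apply Real.sqrt_le_iff.2
    refine ⟨by positivity, ?_⟩
    have h5 : 4 / δ * (R * (9 * ((2 * N : ℕ) : ℝ) ^ 2 * (1 + Real.log T) *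
        (1 + Real.log (2 * N : ℕ)))) =
        (144 * ((1 + Real.log T) * (1 + Real.log (2 * N : ℕ)))) * (N ^ 2 * (R / δ)) := by
      push_cast
      field_simp
      ring
    have h6 : (12 * L * (N * √(R / δ))) ^ 2 = (144 * (L * L)) * (N ^ 2 * (R / δ)) := by
      have : (√(R / δ)) ^ 2 = R / δ := Real.sq_sqrt (by positivity)
      calc (12 * L * (N * √(R / δ))) ^ 2 = 144 * (L * L) * (N ^ 2 * (√(R / δ)) ^ 2) := by ring
        _ = _ := by rw [this]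
    rw [h5, h6]
    apply mul_le_mul_of_nonneg_right _ (by positivity)
    have h7 : (1 + Real.log T) * (1 + Real.log ((2 * N : ℕ) : ℝ)) ≤ L * L :=
      mul_le_mul h1 h3 (by linarith) (by linarith)
    linarith
  have h8 := Real.sqrt_nonneg (R / δ)
  have h9 : 12 * L * (N * √(R / δ)) ≤ 54 * L * (N * √(R / δ)) :=
    mul_le_mul_of_nonneg_right (by linarith) (by positivity)
  have h10 : m ≤ 54 * L * m := by nlinarith
  rw [mul_add (54 * L) m]
  linarith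

/-- the bound for the norm of one piece -/
theorem B_le {N : ℕ} (hN : 1 ≤ N) {T δ m R Q : ℝ} (hT : 1 ≤ T) (hδ : 0 < δ) (hR : 0 ≤ R)
    (hQ : 0 ≤ Q) (hm : 0 ≤ m) :
    min (((2 * N : ℕ) : ℝ) * (1 + 8 * Real.pi * (1 + Real.log T)) +
        √(4 / δ * (Q * (9 * (2 * N : ℕ) * (1 + Real.log (2 * T))))))
      (m + √(4 / δ * (R * (9 * ((2 * N : ℕ) : ℝ) ^ 2 * (1 + Real.log T) *
        (1 + Real.log (2 * N : ℕ)))))) ≤
      54 * (1 + Real.log (2 * N * T)) * min (N + √(N * Q / δ)) (m + N * √(R / δ)) := by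
  obtain ⟨-, -, -, h4⟩ := logs hN hT
  rw [mul_min_of_nonneg _ _ (by linarith : 0 ≤ 54 * (1 + Real.log (2 * N * T)))]
  exact min_le_min (B1_le hN hT hδ hQ) (B2_le hN hT hδ hR hm)

/-- the bound for the norm of the good pieces -/
noncomputable def muN (N : ℕ) (m δ : ℝ) : ℝ := min (N + m * √(N / δ)) (m + N * √(m / δ))

theorem muN_nonneg (N : ℕ) {m δ : ℝ} (hm : 0 ≤ m) : 0 ≤ muN N m δ := by
  unfold muN
  apply le_min <;> positivity

theorem B_le' {N : ℕ} (hN : 1 ≤ N) {T δ m : ℝ} (hT : 1 ≤ T) (hδ : 0 < δ) (hm : 0 ≤ m) :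
    min (((2 * N : ℕ) : ℝ) * (1 + 8 * Real.pi * (1 + Real.log T)) +
        √(4 / δ * (m ^ 2 * (9 * (2 * N : ℕ) * (1 + Real.log (2 * T))))))
      (m + √(4 / δ * (m * (9 * ((2 * N : ℕ) : ℝ) ^ 2 * (1 + Real.log T) *
        (1 + Real.log (2 * N : ℕ)))))) ≤
      54 * (1 + Real.log (2 * N * T)) * muN N m δ := by
  have h := B_le hN hT hδ hm (by positivity : 0 ≤ m ^ 2) hm
  refine h.trans (le_of_eq ?_)
  unfold muN
  congr 3
  have h1 : N * m ^ 2 / δ = m ^ 2 * (N / δ) := by ring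
  rw [h1, Real.sqrt_mul (by positivity), Real.sqrt_sq hm]

theorem first_le {N : ℕ} (hN : 1 ≤ N) {T h R : ℝ} (hh : 1 ≤ h) (hT : 1 ≤ T) (hR0 : 0 ≤ R) :
    (Real.exp 1 - 1) * (R * (1 + 4 * ((2 * N : ℕ) : ℝ) * (1 + Real.log (2 * N : ℕ)) / h)) ≤
      54 * (1 + Real.log (2 * N * T)) * (R * (1 + N / h)) := by
  have hN1 : (1:ℝ) ≤ N := by exact_mod_cast hN
  obtain ⟨h1, h2, h3, h4⟩ := logs hN hT
  have hh0 : 0 < h := by linarith
  obtain ⟨L, hL⟩ : ∃ L : ℝ, L = 1 + Real.log (2 * N * T) := ⟨_, rfl⟩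
  have hL1 : 1 ≤ L := by rw [hL]; linarith
  have he : Real.exp 1 - 1 ≤ 2 := by
    have := Real.exp_one_lt_d9
    linarith
  have he0 : 0 ≤ Real.exp 1 - 1 := by
    have := Real.add_one_le_exp (1:ℝ)
    linarith
  have h7 : 1 + 4 * ((2 * N : ℕ) : ℝ) * (1 + Real.log (2 * N : ℕ)) / h ≤
      8 * L * (1 + N / h) := by
    rw [← hL] at h3
    have h8 : 4 * ((2 * N : ℕ) : ℝ) * (1 + Real.log (2 * N : ℕ)) / h ≤ 8 * L * (N / h) := by
      have h9 : 4 * ((2 * N : ℕ) : ℝ) * (1 + Real.log (2 * N : ℕ)) / h =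
          8 * (N / h) * (1 + Real.log (2 * N : ℕ)) := by
        push_cast
        ring
      rw [h9]
      have h10 : 8 * L * (N / h) = 8 * (N / h) * L := by ring
      rw [h10]
      exact mul_le_mul_of_nonneg_left h3 (by positivity)
    rw [mul_add (8 * L) 1]
    linarith
  have hl2N : 0 ≤ Real.log ((2 * N : ℕ) : ℝ) := Real.log_nonneg (by push_cast; linarith)
  have h11 : 0 ≤ R * (1 + 4 * ((2 * N : ℕ) : ℝ) * (1 + Real.log (2 * N : ℕ)) / h) := by positivity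
  have h12 : 0 ≤ R * (1 + N / h) := by positivity
  calc (Real.exp 1 - 1) * (R * (1 + 4 * ((2 * N : ℕ) : ℝ) * (1 + Real.log (2 * N : ℕ)) / h))
      ≤ 2 * (R * (8 * L * (1 + N / h))) :=
        mul_le_mul he (mul_le_mul_of_nonneg_left h7 hR0) h11 (by norm_num)
    _ = 16 * L * (R * (1 + N / h)) := by ring
    _ ≤ 54 * L * (R * (1 + N / h)) := mul_le_mul_of_nonneg_right (by linarith) h12
    _ = _ := by rw [hL]

/-- the large sieve inequality for independently dilated sets -/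
theorem sieve {ι : Type*} [Fintype ι] (N : ℕ) (hN : 1 ≤ N) (T h δ θ m : ℝ) (hh : 1 ≤ h)
    (hT : 1 ≤ T) (hδ : 0 < δ) (hδ1 : δ ≤ 1) (hθ : 0 < θ) (S : ι → Finset ℝ)
    (hS : ∀ j, ∀ s ∈ S j, h ≤ s ∧ s ≤ T)
    (hsep : ∀ j, ∀ t ∈ S j, ∀ s ∈ S j, t ≠ s → 1 ≤ |t - s|) (x : ι → ℝ)
    (hm : ∀ j, ((S j).card : ℝ) ≤ m) (hm0 : 0 ≤ m) :
    ∃ E : Set (ι → ℝ), MeasurableSet E ∧ volume E ≤ ENNReal.ofReal δ ∧
      ∀ u : ι → ℝ, (∀ j, u j ∈ Set.Icc (0 : ℝ) 1) → u ∉ E → ∃ G : Finset ι,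
        (1 - θ) * ∑ j, ((S j).card : ℝ) ≤ ∑ j ∈ G, ((S j).card : ℝ) ∧ ∀ b : ℕ → ℂ,
        ∑ j ∈ G, ∑ s ∈ S j, ‖∑ n ∈ Icc N (2 * N), b n * ph (x j + (1 + u j) * s) n‖ ^ 2 ≤
          54 * (1 + Real.log (2 * N * T)) * ((∑ j, ((S j).card : ℝ)) * (1 + N / h) +
            muN N m (θ * δ) * Real.log (4 * N / δ)) *
            ∑ n ∈ Icc N (2 * N), ‖b n‖ ^ 2 := by
  have hN1 : (1:ℝ) ≤ N := by exact_mod_cast hN
  obtain ⟨h1, h2, h3, h4⟩ := logs hN hT
  have hh0 : 0 < h := by linarith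
  obtain ⟨L, hL⟩ : ∃ L : ℝ, L = 1 + Real.log (2 * N * T) := ⟨_, rfl⟩
  have hL1 : 1 ≤ L := by rw [hL]; linarith
  have hl : 0 ≤ Real.log (4 * N / δ) := by
    apply Real.log_nonneg
    rw [le_div_iff₀ hδ]
    linarith
  have hR0 : 0 ≤ ∑ j, ((S j).card : ℝ) := Finset.sum_nonneg (fun _ _ => by positivity)
  have hμ0 := muN_nonneg N (δ := θ * δ) hm0
  rcases hR0.eq_or_lt with hR | hR
  · have hv0 : volume (∅ : Set (ι → ℝ)) ≤ ENNReal.ofReal δ := by
      rw [measure_empty]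
      exact zero_le
    refine ⟨∅, MeasurableSet.empty, hv0, ?_⟩
    intro u _ _
    refine ⟨∅, ?_, ?_⟩
    · rw [← hR, Finset.sum_empty, mul_zero]
    intro b
    rw [← hL, Finset.sum_empty]
    have h9 : 0 ≤ ∑ n ∈ Icc N (2 * N), ‖b n‖ ^ 2 := Finset.sum_nonneg (fun _ _ => by positivity)
    positivity
  · obtain ⟨E, hE, hvol, hmain⟩ := main N hN T h δ θ m hh hT hδ hθ S hS hsep x hm hR _ rfl
    refine ⟨E, hE, hvol, ?_⟩
    intro u hu huE
    obtain ⟨G, hG, hb⟩ := hmain u hu huE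
    refine ⟨G, hG, fun b => ?_⟩
    refine (hb b).trans ?_
    apply mul_le_mul_of_nonneg_right _ (Finset.sum_nonneg (fun _ _ => by positivity))
    have hB := B_le' hN hT (by positivity : 0 < θ * δ) hm0
    have h44 : 2 * (2 * (N:ℝ)) / δ = 4 * N / δ := by ring
    rw [h44]
    have h5 := mul_le_mul_of_nonneg_right hB hl
    have h6 := first_le hN hh hT hR0 (R := ∑ j, ((S j).card : ℝ))
    rw [mul_add (54 * (1 + Real.log (2 * N * T))),
      ← mul_assoc (54 * (1 + Real.log (2 * N * T))) (muN _ _ _)]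
    exact add_le_add h6 h5

end Pool.Agent.W2helper69.ID
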