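import Pool.Agent.W2helper69.ID.E

/-! # independent dilations: large values -/

set_option autoImplicit false

open Finset MeasureTheory

namespace Pool.Agent.W2helper69.ID

open Pool.Agent.TH181.LV Pool.Agent.TH705.DL

/-- number of points -/
noncomputable def RR {ι : Type*} [Fintype ι] (S : ι → Finset ℝ) : ℝ := ∑ j, ((S j).card : ℝ)

/-- the largest size of a piece -/
def mm {ι : Type*} [Fintype ι] (S : ι → Finset ℝ) : ℕ := Finset.univ.sup (fun j => (S j).card)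

theorem card_le_mm {ι : Type*} [Fintype ι] (S : ι → Finset ℝ) (j : ι) :
    ((S j).card : ℝ) ≤ mm S := by
  have : (S j).card ≤ mm S := Finset.le_sup (f := fun j => (S j).card) (Finset.mem_univ j)
  exact_mod_cast this

theorem mm_le_RR {ι : Type*} [Fintype ι] (S : ι → Finset ℝ) : (mm S : ℝ) ≤ RR S := by
  have h1 : mm S ≤ ∑ j, (S j).card := by
    apply Finset.sup_le
    intro j _
    exact Finset.single_le_sum (f := fun j => (S j).card) (fun _ _ => Nat.zero_le _)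
      (Finset.mem_univ j)
  unfold RR
  exact_mod_cast h1

theorem RR_nonneg {ι : Type*} [Fintype ι] (S : ι → Finset ℝ) : 0 ≤ RR S :=
  Finset.sum_nonneg (fun _ _ => by positivity)

/-- elementary consequences of the basic inequality `R ≤ (K N / V²) μ` -/
theorem elem {R m N K V δ : ℝ} (hR : 0 ≤ R) (hm : 0 ≤ m) (hmR : m ≤ R) (hN : 0 < N)
    (hK : 0 < K) (hV : 0 < V) (hδ : 0 < δ)
    (h : R ≤ K * N / V ^ 2 * min (N + m * √(N / (δ / 2))) (m + N * √(m / (δ / 2)))) :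
    (8 * (K ^ 2 * N ^ 3) ≤ δ * V ^ 4 → R ≤ 2 * K * N ^ 2 / V ^ 2) ∧
    (2 * (K * N) ≤ V ^ 2 → R ≤ 8 * K ^ 2 * N ^ 4 / (δ * V ^ 4)) := by
  obtain ⟨Z, hZ⟩ : ∃ Z : ℝ, Z = K * N / V ^ 2 := ⟨_, rfl⟩
  have hZ0 : 0 ≤ Z := by rw [hZ]; positivity
  rw [← hZ] at h
  constructor
  · intro hc
    have h1 : R ≤ Z * (N + m * √(N / (δ / 2))) :=
      h.trans (mul_le_mul_of_nonneg_left (min_le_left _ _) hZ0)
    have h2 : Z * √(N / (δ / 2)) ≤ 1 / 2 := by
      have h3 : Z * √(N / (δ / 2)) = √(Z ^ 2 * (N / (δ / 2))) := by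
        rw [Real.sqrt_mul (by positivity), Real.sqrt_sq hZ0]
      rw [h3]
      apply Real.sqrt_le_iff.2
      refine ⟨by norm_num, ?_⟩
      have h4 : Z ^ 2 * (N / (δ / 2)) = (8 * (K ^ 2 * N ^ 3)) / (δ * V ^ 4) / 4 := by
        rw [hZ]
        field_simp
        ring
      rw [h4]
      have h5 : (8 * (K ^ 2 * N ^ 3)) / (δ * V ^ 4) ≤ 1 := by
        rw [div_le_one (by positivity)]
        exact hc
      linarith
    have h6 : Z * (m * √(N / (δ / 2))) ≤ R / 2 := by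
      have h7 : 0 ≤ √(N / (δ / 2)) := Real.sqrt_nonneg _
      calc Z * (m * √(N / (δ / 2))) = m * (Z * √(N / (δ / 2))) := by ring
        _ ≤ R * (1 / 2) := mul_le_mul hmR h2 (by positivity) hR
        _ = _ := by ring
    have h8 : 2 * K * N ^ 2 / V ^ 2 = 2 * (Z * N) := by
      rw [hZ]
      field_simp
    rw [h8]
    rw [mul_add] at h1
    linarith
  · intro hc
    have hZ1 : Z ≤ 1 / 2 := by
      rw [hZ, div_le_iff₀ (by positivity)]
      linarith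
    have h1 : R ≤ Z * (m + N * √(m / (δ / 2))) :=
      h.trans (mul_le_mul_of_nonneg_left (min_le_right _ _) hZ0)
    have h2 : √(m / (δ / 2)) ≤ √R * √(2 / δ) := by
      rw [← Real.sqrt_mul hR]
      apply Real.sqrt_le_sqrt
      have : R * (2 / δ) = R / (δ / 2) := by field_simp
      rw [this]
      exact div_le_div_of_nonneg_right hmR (by positivity)
    obtain ⟨y, hy⟩ : ∃ y : ℝ, y = √(2 / δ) := ⟨_, rfl⟩
    obtain ⟨z, hz⟩ : ∃ z : ℝ, z = √R := ⟨_, rfl⟩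
    have hy2 : y ^ 2 = 2 / δ := by rw [hy]; exact Real.sq_sqrt (by positivity)
    have hz2 : z ^ 2 = R := by rw [hz]; exact Real.sq_sqrt hR
    rw [← hy, ← hz] at h2
    have h3 : Z * (N * √(m / (δ / 2))) ≤ R / 4 + (Z * N * y) ^ 2 := by
      have h4 : Z * (N * √(m / (δ / 2))) ≤ Z * (N * (z * y)) :=
        mul_le_mul_of_nonneg_left (mul_le_mul_of_nonneg_left h2 hN.le) hZ0
      have h5 : Z * (N * (z * y)) ≤ z ^ 2 / 4 + (Z * N * y) ^ 2 := by
        nlinarith [sq_nonneg (z / 2 - Z * N * y)]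
      rw [hz2] at h5
      linarith
    have h6 : Z * m ≤ R / 2 := by
      calc Z * m ≤ 1 / 2 * R := mul_le_mul hZ1 hmR hm (by norm_num)
        _ = _ := by ring
    have h7 : 8 * K ^ 2 * N ^ 4 / (δ * V ^ 4) = 4 * (Z * N * y) ^ 2 := by
      rw [mul_pow, hy2, hZ]
      field_simp
      ring
    rw [h7]
    rw [mul_add] at h1
    linarith

/-- large values at the points of the pieces, from the mean square -/
theorem of_sieve {ι : Type*} [Fintype ι] (N : ℕ) (hN : 1 ≤ N) (T h δ : ℝ) (hh : 1 ≤ h)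
    (hT : 1 ≤ T) (hδ : 0 < δ) (hδ1 : δ ≤ 1) (S : ι → Finset ℝ) (F : ι → ℝ → ℂ) (b : ℕ → ℂ)
    (hb : ∀ n, ‖b n‖ ≤ 1) (G : Finset ι) (hG : (1 - 1 / 2) * RR S ≤ ∑ j ∈ G, ((S j).card : ℝ))
    (hs : ∑ j ∈ G, ∑ s ∈ S j, ‖F j s‖ ^ 2 ≤
          54 * (1 + Real.log (2 * N * T)) * (RR S * (1 + N / h) +
            muN N (mm S) (1 / 2 * δ) * Real.log (4 * N / δ)) *
            ∑ n ∈ Icc N (2 * N), ‖b n‖ ^ 2) (V K : ℝ) (hV : 0 < V)
    (hK : K = 432 * (1 + Real.log (2 * N * T)) * Real.log (4 * N / δ))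
    (hVK : K * (N * (1 + N / h)) ≤ V ^ 2) (hF : ∀ j, ∀ s ∈ S j, V ≤ ‖F j s‖) :
    RR S ≤ K * N / V ^ 2 * muN N (mm S) (δ / 2) ∧
    (8 * (K ^ 2 * N ^ 3) ≤ δ * V ^ 4 → RR S ≤ 2 * K * N ^ 2 / V ^ 2) ∧
    (2 * (K * N) ≤ V ^ 2 → RR S ≤ 8 * K ^ 2 * N ^ 4 / (δ * V ^ 4)) := by
  have hN1 : (1:ℝ) ≤ N := by exact_mod_cast hN
  have hN0 : (0:ℝ) < N := by linarith
  obtain ⟨-, -, -, h4⟩ := logs hN hT
  have hh0 : 0 < h := by linarith
  obtain ⟨L, hL⟩ : ∃ L : ℝ, L = 1 + Real.log (2 * N * T) := ⟨_, rfl⟩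
  obtain ⟨l, hl⟩ : ∃ l : ℝ, l = Real.log (4 * N / δ) := ⟨_, rfl⟩
  have hL1 : 1 ≤ L := by rw [hL]; linarith
  have hl1 : 1 ≤ l := by
    have h5 : Real.exp 1 ≤ 4 * N / δ := by
      rw [le_div_iff₀ hδ]
      have := Real.exp_one_lt_d9
      nlinarith
    rw [hl, Real.le_log_iff_exp_le (by positivity)]
    exact h5
  rw [← hL, ← hl] at hs hK
  have hK1 : 1 ≤ K := by rw [hK]; nlinarith [mul_le_mul hL1 hl1 zero_le_one (by linarith)]
  have hK0 : 0 < K := by linarith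
  have hR0 := RR_nonneg S
  have hm0 : (0:ℝ) ≤ mm S := Nat.cast_nonneg _
  have hmR := mm_le_RR S
  have h12 : 1 / 2 * δ = δ / 2 := by ring
  rw [h12] at hs
  have hμ0 : 0 ≤ muN N (mm S) (δ / 2) := muN_nonneg N hm0
  obtain ⟨μ, hμ⟩ : ∃ μ : ℝ, μ = muN N (mm S) (δ / 2) := ⟨_, rfl⟩
  rw [← hμ] at hs hμ0
  -- lower bound for the mean square
  have h5 : (∑ j ∈ G, ((S j).card : ℝ)) * V ^ 2 ≤ ∑ j ∈ G, ∑ s ∈ S j, ‖F j s‖ ^ 2 := by
    rw [Finset.sum_mul]
    apply Finset.sum_le_sum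
    intro j _
    rw [← nsmul_eq_mul]
    apply Finset.card_nsmul_le_sum
    intro s hs
    exact pow_le_pow_left₀ hV.le (hF j s hs) 2
  have h6 : ∑ n ∈ Icc N (2 * N), ‖b n‖ ^ 2 ≤ 2 * N := by
    calc ∑ n ∈ Icc N (2 * N), ‖b n‖ ^ 2 ≤ ∑ n ∈ Icc N (2 * N), (1:ℝ) := by
          apply Finset.sum_le_sum
          intro n _
          exact pow_le_one₀ (norm_nonneg _) (hb n)
      _ = N + 1 := by
          rw [Finset.sum_const, Nat.card_Icc, nsmul_eq_mul, mul_one]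
          have : 2 * N + 1 - N = N + 1 := by omega
          rw [this]
          push_cast
          ring
      _ ≤ 2 * N := by linarith
  have hVV : 0 < V ^ 2 := by positivity
  have h7 : (1 - 1 / 2) * RR S * V ^ 2 ≤ 54 * L * (RR S * (1 + N / h) + μ * l) * (2 * N) :=
    (mul_le_mul_of_nonneg_right hG hVV.le).trans
      ((h5.trans hs).trans (mul_le_mul_of_nonneg_left h6 (by positivity)))
  -- the first term is at most a quarter
  have h8 : 108 * L * N * (RR S * (1 + N / h)) ≤ RR S * V ^ 2 / 4 := by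
    have h9 : 432 * L * (N * (1 + N / h)) ≤ V ^ 2 := by
      refine le_trans ?_ hVK
      apply mul_le_mul_of_nonneg_right _ (by positivity)
      rw [hK]
      nlinarith
    nlinarith [mul_le_mul_of_nonneg_left h9 hR0]
  have h9 : RR S ≤ K * N / V ^ 2 * μ := by
    have h10 : RR S * V ^ 2 ≤ K * N * μ := by
      rw [hK]
      nlinarith
    have h11 : K * N / V ^ 2 * μ = (K * N * μ) / V ^ 2 := by
      field_simp
    rw [h11, le_div_iff₀ hVV]
    exact h10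
  have h13 := h9
  rw [hμ] at h13
  unfold muN at h13
  exact ⟨by rw [← hμ]; exact h9, elem hR0 hm0 hmR hN0 hK0 hV hδ h13⟩

/-- the logarithmic factors are eventually small -/
theorem ev_small (A ε η : ℝ) (hA : 1 ≤ A) (hε : 0 < ε) (hη : 0 < η) :
    ∃ N₀ : ℕ, ∀ N : ℕ, N₀ ≤ N → 1 ≤ N ∧ ∀ T : ℝ, (N:ℝ) ≤ T → T ≤ (N:ℝ) ^ A →
      2 * (432 * (1 + Real.log (2 * N * T)) * Real.log (4 * N / (N:ℝ) ^ (-ε / 4))) ≤
        (N:ℝ) ^ η := by
  obtain ⟨C, hC⟩ : ∃ C : ℝ, C = 864 * (3 + A) * (3 + ε) * (4 / η) ^ 2 := ⟨_, rfl⟩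
  have hC0 : 0 < C := by rw [hC]; positivity
  refine ⟨⌈C ^ (2 / η)⌉₊ + 3, fun N hN => ?_⟩
  have hN3 : 3 ≤ N := by omega
  have hN3' : (3:ℝ) ≤ N := by exact_mod_cast hN3
  have hN0 : (0:ℝ) < N := by linarith
  refine ⟨by omega, fun T hT1 hT2 => ?_⟩
  have hT0 : 0 < T := by linarith
  obtain ⟨l, hl⟩ : ∃ l : ℝ, l = Real.log N := ⟨_, rfl⟩
  have hl1 : 1 ≤ l := by
    rw [hl, Real.le_log_iff_exp_le hN0]
    have := Real.exp_one_lt_d9
    linarith
  have hlog2 : Real.log 2 ≤ 1 := by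
    have := Real.log_two_lt_d9
    linarith
  have h1 : 1 + Real.log (2 * N * T) ≤ (3 + A) * l := by
    rw [Real.log_mul (by positivity) hT0.ne', Real.log_mul (by norm_num) hN0.ne', ← hl]
    have h2 : Real.log T ≤ A * l := by
      rw [hl, ← Real.log_rpow hN0]
      exact Real.log_le_log hT0 hT2
    nlinarith
  have h2 : Real.log (4 * N / (N:ℝ) ^ (-ε / 4)) ≤ (3 + ε) * l := by
    have h3 : (4 * N / (N:ℝ) ^ (-ε / 4)) = 4 * N * (N:ℝ) ^ (ε / 4) := by
      have : -ε / 4 = -(ε / 4) := by ring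
      rw [this, Real.rpow_neg hN0.le]
      field_simp
    rw [h3, Real.log_mul (by positivity) (by positivity), Real.log_mul (by norm_num) hN0.ne',
      Real.log_rpow hN0, ← hl]
    have h4 : Real.log 4 ≤ 2 := by
      have : (4:ℝ) = 2 ^ 2 := by norm_num
      rw [this, Real.log_pow]
      push_cast
      linarith
    nlinarith
  have h3 : 0 ≤ Real.log (4 * N / (N:ℝ) ^ (-ε / 4)) := by
    apply Real.log_nonneg
    rw [le_div_iff₀ (by positivity), one_mul]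
    have : (N:ℝ) ^ (-ε / 4) ≤ 1 := Real.rpow_le_one_of_one_le_of_nonpos (by linarith) (by linarith)
    linarith
  have h4 : 2 * (432 * (1 + Real.log (2 * N * T)) * Real.log (4 * N / (N:ℝ) ^ (-ε / 4))) ≤
      864 * ((3 + A) * l) * ((3 + ε) * l) := by
    have h5 : (1 + Real.log (2 * N * T)) * Real.log (4 * N / (N:ℝ) ^ (-ε / 4)) ≤
        ((3 + A) * l) * ((3 + ε) * l) := mul_le_mul h1 h2 h3 (by positivity)
    linarith
  refine h4.trans ?_
  have h5 : l ≤ (N:ℝ) ^ (η / 4) * (4 / η) := by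
    rw [hl]
    have := Real.log_le_rpow_div hN0.le (by positivity : 0 < η / 4)
    refine this.trans (le_of_eq ?_)
    field_simp
  have h6 : l * l ≤ (N:ℝ) ^ (η / 2) * (4 / η) ^ 2 := by
    have h7 : (N:ℝ) ^ (η / 2) = (N:ℝ) ^ (η / 4) * (N:ℝ) ^ (η / 4) := by
      rw [← Real.rpow_add hN0]
      congr 1
      ring
    rw [h7]
    calc l * l ≤ ((N:ℝ) ^ (η / 4) * (4 / η)) * ((N:ℝ) ^ (η / 4) * (4 / η)) :=
          mul_le_mul h5 h5 (by linarith) (by positivity)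
      _ = _ := by ring
  have h7 : C ≤ (N:ℝ) ^ (η / 2) := by
    have h8 : C ^ (2 / η) ≤ N := by
      have h9 := Nat.le_ceil (C ^ (2 / η))
      have h10 : (⌈C ^ (2 / η)⌉₊ : ℝ) + 3 ≤ N := by exact_mod_cast hN
      linarith
    have h9 := Real.rpow_le_rpow (by positivity) h8 (by positivity : 0 ≤ η / 2)
    rw [← Real.rpow_mul hC0.le] at h9
    have h10 : 2 / η * (η / 2) = 1 := by field_simp
    rw [h10, Real.rpow_one] at h9
    exact h9
  calc 864 * ((3 + A) * l) * ((3 + ε) * l) = 864 * (3 + A) * (3 + ε) * (l * l) := by ring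
    _ ≤ 864 * (3 + A) * (3 + ε) * ((N:ℝ) ^ (η / 2) * (4 / η) ^ 2) :=
        mul_le_mul_of_nonneg_left h6 (by positivity)
    _ = C * (N:ℝ) ^ (η / 2) := by rw [hC]; ring
    _ ≤ (N:ℝ) ^ (η / 2) * (N:ℝ) ^ (η / 2) := mul_le_mul_of_nonneg_right h7 (by positivity)
    _ = (N:ℝ) ^ η := by
        rw [← Real.rpow_add hN0]
        congr 1
        ring

end Pool.Agent.W2helper69.ID
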